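import Pool.Agent.Run7.h275.S.MA
import Pool.Agent.Run7.h275.RB22

/-!
# The main theorem on schemes, absolute version
-/

set_option autoImplicit false
set_option linter.unusedVariables false

namespace Pool.Agent.Run7.h275.SC

open AlgebraicGeometry CategoryTheory Pool.Agent.W418.LU2 Pool.Agent.H918R2.Quad Pool.Agent.Run7.h275.RB
  Pool.Agent.Run7.h275.RL

/-- A coordinate system with a given affine chart. -/
lemma coords {O F : Type} [CommRing O] [Field F] [Algebra O F] {A : Subring F} (hA : FGO O A) (hF : Frc A) :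
    ∃ (n : ℕ) (y : Fin n → F), 0 < n ∧ (∀ i, y i ≠ 0) ∧
      ∀ i, Frc (chart O (Submodule.span O (Set.range y)) (y i)).toSubring := by
  obtain ⟨m, a, ha1, ha0, hAa⟩ := gens1 hA
  refine ⟨m + 1, a, Nat.succ_pos m, ha0, fun j => hF.of_le ?_⟩
  set M₀ : Submodule O F := Submodule.span O (Set.range a) with hM₀
  have haM : ∀ k, a k ∈ M₀ := fun k => Submodule.subset_span ⟨k, rfl⟩
  have hO : ∀ o : O, algebraMap O F o ∈ FrS (chart O M₀ (a j)).toSubring := fun o =>
    ⟨_, Subalgebra.algebraMap_mem _ o, 1, Subring.one_mem _, one_ne_zero, by rw [div_one]⟩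
  let S : Subalgebra O F := { FrS (chart O M₀ (a j)).toSubring with algebraMap_mem' := hO }
  have h1 : Algebra.adjoin O (Set.range a) ≤ S := Algebra.adjoin_le (by
    rintro _ ⟨k, rfl⟩
    refine ⟨a k / a j, Algebra.subset_adjoin ⟨_, haM k, rfl⟩, a 0 / a j, Algebra.subset_adjoin ⟨_, haM 0, rfl⟩,
      div_ne_zero (ha0 0) (ha0 j), ?_⟩
    rw [div_div_div_cancel_right₀ (ha0 j), ha1, div_one])
  rw [hAa]
  exact h1

theorem MAINB (hOIM : S_OIM) (hGLU : S_GLU) (hDCT : S_DCT) (hSTK : S_STK) (hLFO : S_LFO) (hDVV : S_DVV)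
    (hFFD : S_FFD) (hPTS : S_PTS)
    (O : Type) [CommRing O] [IsDomain O] [IsRegularRing O] (hJ : J0 O)
    (X : Scheme.{0}) [IsIntegral X] (f : X ⟶ Spec (CommRingCat.of O)) (hf1 : LocallyOfFiniteType f)
    (hf2 : QuasiCompact f)
    (hMnz : ∀ (F : Type) [Field F] [Algebra O F] (_ : F ≃+* X.functionField) (n : ℕ) (y : Fin n → F) (i : Fin n),
      ∃ δ, δ ≠ 0 ∧ Mn O y i δ) :
    ∃ (Y : Scheme.{0}) (_ : IsIntegral Y) (g : Y ⟶ Spec (CommRingCat.of O)),
      IsSeparated g ∧ LocallyOfFiniteType g ∧ (∀ y : Y, IsRegularLocalRing (Y.presheaf.stalk y)) ∧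
      Nonempty (Y.functionField ≃+* X.functionField) ∧ ∃ U : Y.Opens, U ≠ ⊥ ∧
        ∀ (R : Type) [CommRing R] [IsDomain R] [IsDiscreteValuationRing R]
          (γ : Spec (CommRingCat.of (FractionRing R)) ⟶ Y) (δ : Spec (CommRingCat.of R) ⟶ Spec (CommRingCat.of O)),
          (∀ z, γ z ∈ U) → Spec.map (CommRingCat.ofHom (algebraMap R (FractionRing R))) ≫ δ = γ ≫ g →
          ∃ β : Spec (CommRingCat.of R) ⟶ Y,
            Spec.map (CommRingCat.ofHom (algebraMap R (FractionRing R))) ≫ β = γ ∧ β ≫ g = δ := by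
  classical
  obtain ⟨F, _, _, e, g₀, r, A, j, hA, hcov, hg₀f, hg₀⟩ := hDCT O X f hf1 hf2
  obtain ⟨i₀, -⟩ := hcov (genericPoint X)
  obtain ⟨n, y, hn, hy, hF⟩ := coords (hA i₀).1 (hA i₀).2.1
  obtain ⟨𝓑, hB1, hB2, hB3, B₀, hB₀, hval⟩ := COREB hPTS hJ (fun n y i => hMnz F e n y i) hn y hy hF
  have hFam : Fam 𝓑 := fam_of (O := O) (fun B hB => (hB1 B hB).1) (fun B hB => (hB1 B hB).2.1) hB2 hB3 ⟨B₀, hB₀⟩
  -- the structure morphisms
  let hs : ∀ B, B ∈ 𝓑 → (O →+* B) := fun B hB => (algebraMap O F).codRestrict B fun o => (hB1 B hB).1.base o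
  obtain ⟨Y, g, ι, hY1, hY2, hι, hιc, hιs, hlft⟩ := hGLU hOIM F 𝓑 hFam (Spec (CommRingCat.of O))
    (fun B hB => Spec.map (CommRingCat.ofHom (hs B hB))) (by
      intro B C hB hC hBC
      unfold inc
      rw [← Spec.map_comp, ← CommRingCat.ofHom_comp]
      rfl)
  have hsep : IsSeparated g := inferInstance
  have hιB₀ := (hι B₀ hB₀).1
  refine ⟨Y, hY1, g, hsep, ?_, hSTK F 𝓑 Y ι (fun B hB => (hι B hB).1) hιs (fun B hB V hV => (hB1 B hB).2.2 V hV), ?_,
    (ι B₀ hB₀).opensRange, ?_, ?_⟩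
  · refine hlft fun B hB => hLFO O F B (hB1 B hB).1 _ ?_
    unfold gen
    rw [← Spec.map_comp, ← CommRingCat.ofHom_comp]
    rfl
  · obtain ⟨e'⟩ := hFFD F B₀ Y (ι B₀ hB₀) (hB1 B₀ hB₀).2.1 hιB₀
    exact ⟨e'.trans e⟩
  · intro h0
    have h1 : ι B₀ hB₀ (gen B₀ (⊥ : PrimeSpectrum F)) ∈ (ι B₀ hB₀).opensRange := ⟨_, rfl⟩
    rw [h0] at h1
    exact h1
  · intro R _ _ _ γ δ hγU hsq
    have hrange : Set.range γ ⊆ Set.range (ι B₀ hB₀) := by
      rintro _ ⟨z, rfl⟩
      exact hγU z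
    obtain ⟨φ, hφ⟩ := Spec.map_surjective (IsOpenImmersion.lift (ι B₀ hB₀) γ hrange)
    have hφγ : Spec.map φ ≫ ι B₀ hB₀ = γ := by
      rw [hφ]
      exact IsOpenImmersion.lift_fac _ _ _
    obtain ⟨δ', rfl⟩ := Spec.map_surjective δ
    obtain ⟨VR, hV1, hV2, hV3, hV4⟩ := hDVV R
    have hO : ∀ o : O, φ.hom (hs B₀ hB₀ o) = algebraMap R (FractionRing R) (δ'.hom o) := by
      rw [← hφγ, Category.assoc, (hι B₀ hB₀).2, ← Spec.map_comp, ← Spec.map_comp] at hsq
      have h1 := Spec.map_injective hsq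
      intro o
      have h2 := congrArg (fun ψ => ψ.hom o) h1
      exact h2.symm
    obtain ⟨B, hB, β, γ', hγ1, hγ2⟩ := hval (FractionRing R) VR (by
      intro x hx hx0
      obtain ⟨r, rfl⟩ := hV2 x hx
      obtain ⟨q, hq⟩ := hV4 r (by rintro rfl; exact hx0 (map_zero _))
      exact ⟨q, hV3 r q hq⟩) φ.hom (by
      intro o h
      have h1 := hO o
      change φ.hom (⟨algebraMap O F o, h⟩ : B₀) ∈ VR
      have h2 : φ.hom (⟨algebraMap O F o, h⟩ : B₀) = φ.hom (hs B₀ hB₀ o) := rfl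
      rw [h2, h1]
      exact hV1 _)
    let κ : R →+* VR := (algebraMap R (FractionRing R)).codRestrict VR.toSubring hV1
    have hκ : Function.Bijective κ := by
      constructor
      · intro x z hxz
        exact IsFractionRing.injective R (FractionRing R) (congrArg Subtype.val hxz)
      · rintro ⟨x, hx⟩
        obtain ⟨z, hz⟩ := hV2 x hx
        exact ⟨z, Subtype.ext hz⟩
    let κe : R ≃+* VR := RingEquiv.ofBijective κ hκ
    let βR : B →+* R := κe.symm.toRingHom.comp β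
    have hβK : ∀ b : B, algebraMap R (FractionRing R) (βR b) = ((β b : VR) : FractionRing R) := by
      intro b
      have h1 : κe (κe.symm (β b)) = β b := RingEquiv.apply_symm_apply _ _
      exact congrArg Subtype.val h1
    have hsup : B ⊔ B₀ ∈ 𝓑 := hB2 B hB B₀ hB₀
    have e1 : (algebraMap R (FractionRing R)).comp βR = γ'.comp (Subring.inclusion le_sup_left) := by
      ext b
      change algebraMap R (FractionRing R) (βR b) = γ' ⟨b, _⟩
      rw [hβK]
      exact (hγ1 b b.2 _).symm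
    have e2 : φ.hom = γ'.comp (Subring.inclusion le_sup_right) := by
      ext b
      exact (hγ2 b b.2 _).symm
    refine ⟨Spec.map (CommRingCat.ofHom βR) ≫ ι B hB, ?_, ?_⟩
    · rw [← Category.assoc, ← Spec.map_comp, ← CommRingCat.ofHom_comp, e1, CommRingCat.ofHom_comp, Spec.map_comp,
        Category.assoc]
      have h1 := hιc B (B ⊔ B₀) hB hsup le_sup_left
      have h2 := hιc B₀ (B ⊔ B₀) hB₀ hsup le_sup_right
      unfold inc at h1 h2
      rw [h1, ← h2, ← hφγ, ← Category.assoc, ← Spec.map_comp, ← CommRingCat.ofHom_comp, ← e2]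
      rfl
    · rw [Category.assoc, (hι B hB).2, ← Spec.map_comp]
      congr 1
      ext o
      change βR (hs B hB o) = δ'.hom o
      apply IsFractionRing.injective R (FractionRing R)
      rw [hβK, ← hO]
      have h1 : (((β (hs B hB o) : VR)) : FractionRing R) =
          γ' ⟨algebraMap O F o, le_sup_left (a := B) (b := B₀) ((hB1 B hB).1.base o)⟩ :=
        (hγ1 _ ((hB1 B hB).1.base o) _).symm
      rw [h1]
      exact hγ2 _ ((hB1 B₀ hB₀).1.base o) _

end Pool.Agent.Run7.h275.SC
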