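import Mathlib
import Pool.Agent.Run7.h275.RB0

/-!
# Interface: schemes from subrings of a field
-/

set_option autoImplicit false
set_option linter.unusedVariables false

namespace Pool.Agent.Run7.h275.SC

open AlgebraicGeometry CategoryTheory Pool.Agent.W418.LU2 Pool.Agent.Run7.h275.RB

section

variable {F : Type} [Field F]

/-- Every element of `F` is a fraction of elements of `B`. -/
def Fr (B : Subring F) : Prop := ∀ z : F, ∃ a ∈ B, ∃ b ∈ B, b ≠ 0 ∧ z = a / b

/-- The spectrum of a subring. -/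
noncomputable abbrev Sp (B : Subring F) : Scheme.{0} := Spec (CommRingCat.of B)

/-- The morphism of spectra of an inclusion. -/
noncomputable def inc {B C : Subring F} (h : B ≤ C) : Sp C ⟶ Sp B :=
  Spec.map (CommRingCat.ofHom (Subring.inclusion h))

/-- The generic point of the spectrum. -/
noncomputable def gen (B : Subring F) : Spec (CommRingCat.of F) ⟶ Sp B :=
  Spec.map (CommRingCat.ofHom B.subtype)

/-- A family of subrings which can be glued to a separated scheme. -/
structure Fam (𝓑 : Set (Subring F)) : Prop where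
  ne : 𝓑.Nonempty
  fr : ∀ B ∈ 𝓑, Fr B
  sup : ∀ B ∈ 𝓑, ∀ C ∈ 𝓑, B ⊔ C ∈ 𝓑
  fg : ∀ B ∈ 𝓑, ∀ C ∈ 𝓑, B ≤ C → ∃ s : Finset F, C = Subring.closure ((B : Set F) ∪ s)
  loc : ∀ B ∈ 𝓑, ∀ C ∈ 𝓑, ∀ V : ValuationSubring F, B ≤ V.toSubring → C ≤ V.toSubring →
    lo V.toSubring B = lo V.toSubring C

end

/-- **OIM** Open immersions.  Proof: let `𝔮` be a prime ideal of `C`; a valuation ring `V` of `F` dominates `C_𝔮`, so
`C ≤ lo V B`, and as `C` is finitely generated over `B` there is `s ∈ B`, `V(s) = 1`, with `C ≤ B[1/s]`.  So `D(s)` in `Spec C` is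
mapped isomorphically onto `D(s)` in `Spec B`.  The image is the open set `U` of all `𝔭` for which there is such an `s ∉ 𝔭`, and
`Spec C → U` is an isomorphism, locally on `U`. -/
def S_OIM : Prop := ∀ (F : Type) [Field F] (B C : Subring F) (h : B ≤ C),
  (∃ s : Finset F, C = Subring.closure ((B : Set F) ∪ s)) →
  (∀ V : ValuationSubring F, C ≤ V.toSubring → lo V.toSubring B = lo V.toSubring C) → IsOpenImmersion (inc h)

/-- **GLU** Gluing.  Proof: the functor `𝓑ᵒᵖ → Scheme`, `B ↦ Spec B`, is a locally directed diagram of open immersions (`S_OIM`;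
Mathlib, `AlgebraicGeometry/Gluing.lean`, section IsLocallyDirected): if `x ∈ Spec B`, `y ∈ Spec C` have the same image in `Spec D`,
`D ≤ B, C`, then `B_x = D_z = C_y` in `F`, a valuation ring `V` which dominates this ring contains `B ⊔ C`, and its centre on
`B ⊔ C` is mapped to `x` and `y`.  `Y` is the colimit.  Irreducible: all charts contain the generic point.  Separated: the
diagonal over `Spec B × Spec C` is `Spec (B ⊔ C) → Spec (B ⊗ C)`, a closed immersion (the preimage of the open subset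
`Spec B ∩ Spec C` is `Spec (B ⊔ C)` by `ι_eq_ι_iff`: if `x ∈ Spec B` and `y ∈ Spec C` have the same image in `Y` then they are the
images of a point of `Spec D`, `D ≥ B, C`, so of `Spec (B ⊔ C)`). -/
def S_GLU : Prop := S_OIM → ∀ (F : Type) [Field F] (𝓑 : Set (Subring F)), Fam 𝓑 → ∀ (S : Scheme.{0})
  (h : ∀ B, B ∈ 𝓑 → (Sp B ⟶ S)), (∀ B C (hB : B ∈ 𝓑) (hC : C ∈ 𝓑) (hBC : B ≤ C), inc hBC ≫ h B hB = h C hC) →
  ∃ (Y : Scheme.{0}) (g : Y ⟶ S) (ι : ∀ B, B ∈ 𝓑 → (Sp B ⟶ Y)), IsIntegral Y ∧ Y.IsSeparated ∧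
    (∀ B hB, IsOpenImmersion (ι B hB) ∧ ι B hB ≫ g = h B hB) ∧
    (∀ B C (hB : B ∈ 𝓑) (hC : C ∈ 𝓑) (hBC : B ≤ C), inc hBC ≫ ι B hB = ι C hC) ∧
    (∀ y : Y, ∃ B, ∃ hB : B ∈ 𝓑, ∃ x, ι B hB x = y) ∧
    ((∀ B hB, LocallyOfFiniteType (h B hB)) → LocallyOfFiniteType g)

/-- **DCT** Charts of an integral scheme.  Proof: `F = X.functionField` (a field), `A i` the image of `Γ(X, U_i) → F`
(injective) for a finite cover by nonempty affine open sets; `g₀` is the generic point (`Spec` of the stalk). -/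
def S_DCT : Prop := ∀ (O : Type) [CommRing O] (X : Scheme.{0}) [IsIntegral X] (f : X ⟶ Spec (CommRingCat.of O)),
  LocallyOfFiniteType f → QuasiCompact f →
  ∃ (F : Type) (_ : Field F) (_ : Algebra O F) (_ : F ≃+* X.functionField) (g₀ : Spec (CommRingCat.of F) ⟶ X) (r : ℕ)
    (A : Fin r → Subring F) (j : ∀ i, Sp (A i) ⟶ X), (∀ i, FGO O (A i) ∧ Fr (A i) ∧ IsOpenImmersion (j i) ∧
      gen (A i) ≫ j i = g₀) ∧ (∀ x : X, ∃ i z, j i z = x) ∧
      g₀ ≫ f = Spec.map (CommRingCat.ofHom (algebraMap O F)) ∧ (∀ x : Spec (CommRingCat.of F), g₀ x = genericPoint X)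

/-- **SEC** Proof: `s` is a section of `π` over the open set `W = j.opensRange`; a section of a separated morphism is a closed
immersion, so `W → π ⁻¹ W` is an open and closed immersion with a nonempty source, and `π ⁻¹ W` is irreducible and reduced. -/
def S_SEC : Prop := ∀ (X Y W : Scheme.{0}) (π : Y ⟶ X) (j : W ⟶ X) (s : W ⟶ Y), IsIntegral Y → IsSeparated π →
  Nonempty W → ∀ (_ : IsOpenImmersion j), IsOpenImmersion s → s ≫ π = j → IsIso (π ∣_ j.opensRange)

/-- **EQM** Two morphisms from an integral scheme to a scheme which is separated over an affine base are equal if they are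
equal at the generic point `Spec F → Spec B` (`B ⊆ F`). -/
def S_EQM : Prop := ∀ (F O : Type) [Field F] [CommRing O] (B : Subring F) (X : Scheme.{0})
  (f : X ⟶ Spec (CommRingCat.of O)) (a b : Sp B ⟶ X), IsSeparated f → gen B ≫ a = gen B ≫ b → a = b

/-- **LCR** A morphism from the spectrum of a local ring factors through an open subset of a cover. -/
def S_LCR : Prop := ∀ (R : Type) [CommRing R] [IsLocalRing R] (X : Scheme.{0}) (r : ℕ) (T : Fin r → Scheme.{0})
  (j : ∀ i, T i ⟶ X), (∀ i, IsOpenImmersion (j i)) → (∀ x : X, ∃ i z, j i z = x) →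
  ∀ α : Spec (CommRingCat.of R) ⟶ X, ∃ i, ∃ β : Spec (CommRingCat.of R) ⟶ T i, β ≫ j i = α

/-- **STK** The local rings of a scheme which is covered by spectra of subrings.  The stalk at `ι B x` is isomorphic to the stalk
of `Spec B` at `x`, that is, to `B_x = lo V B` for a valuation ring `V` with the centre `x` on `B`. -/
def S_STK : Prop := ∀ (F : Type) [Field F] (𝓑 : Set (Subring F)) (Y : Scheme.{0}) (ι : ∀ B, B ∈ 𝓑 → (Sp B ⟶ Y)),
  (∀ B hB, IsOpenImmersion (ι B hB)) → (∀ y : Y, ∃ B, ∃ hB : B ∈ 𝓑, ∃ x, ι B hB x = y) →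
  (∀ B ∈ 𝓑, ∀ V : ValuationSubring F, B ≤ V.toSubring → IsRegularLocalRing (lo V.toSubring B)) →
  ∀ y : Y, IsRegularLocalRing (Y.presheaf.stalk y)

/-- **LFO** Finitely generated subalgebras give morphisms locally of finite type. -/
def S_LFO : Prop := ∀ (O F : Type) [CommRing O] [Field F] [Algebra O F] (B : Subring F), FGO O B →
  ∀ h : Sp B ⟶ Spec (CommRingCat.of O), gen B ≫ h = Spec.map (CommRingCat.ofHom (algebraMap O F)) →
    LocallyOfFiniteType h

/-- **FFD** The function field. -/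
def S_FFD : Prop := ∀ (F : Type) [Field F] (B : Subring F) (Y : Scheme.{0}) [IsIntegral Y] (ι : Sp B ⟶ Y), Fr B →
  IsOpenImmersion ι → Nonempty (Y.functionField ≃+* F)

/-- **DVV** A discrete valuation ring as a valuation subring of its fraction field; the orders are finite. -/
def S_DVV : Prop := ∀ (R : Type) [CommRing R] [IsDomain R] [IsDiscreteValuationRing R],
  ∃ V : ValuationSubring (FractionRing R), (∀ r : R, algebraMap R (FractionRing R) r ∈ V) ∧
    (∀ x ∈ V, ∃ r : R, algebraMap R (FractionRing R) r = x) ∧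
    (∀ (r : R) (q : ℕ), r ∉ IsLocalRing.maximalIdeal R ^ (q + 1) → OrdLe V (algebraMap R (FractionRing R) r) q) ∧
    ∀ r : R, r ≠ 0 → ∃ q : ℕ, r ∉ IsLocalRing.maximalIdeal R ^ (q + 1)

end Pool.Agent.Run7.h275.SC
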