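import Pool.Agent.Run7.h275.S.MA
import Pool.Agent.Run7.h275.S.MB
import Pool.Agent.Run7.h275.RBM
import Pool.Agent.Run7.h300.SC.OIM
import Pool.Agent.Run7.h300.SC.CT
import Pool.Agent.Run7.h431.SC.GLU
import Pool.Agent.Run7.h596.SC.DCT
import Pool.Agent.Run7.h596.SC.STK
import Pool.Agent.Run7.h889.SC.SEC
import Pool.Agent.Run7.h889.SC.FFD
import Pool.Agent.Run7.h292.SC.A
import Pool.Agent.Run7.h410.SC.DVV
import Pool.Agent.Run7.h216.RB.Pts
import Pool.Agent.Run7.h882.RB.NZF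
import Pool.Agent.Run7.h637.RB.NZZ

/-!
# The theorems on schemes without hypotheses
-/

set_option autoImplicit false
set_option linter.unusedVariables false

namespace Pool.Agent.Run7.h275.SC

open AlgebraicGeometry CategoryTheory Pool.Agent.W418.LU2 Pool.Agent.Run7.h275.RB Pool.Agent.Run7.h275.RL

/-- Resolution without quasi-compactness over a perfect field. -/
theorem t_MAINK (k : Type) [Field k] [PerfectField k]
    (X : Scheme.{0}) [IsIntegral X] (f : X ⟶ Spec (CommRingCat.of k)) (hf1 : LocallyOfFiniteType f)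
    (hf2 : QuasiCompact f) (hf3 : IsSeparated f) :
    ∃ (Y : Scheme.{0}) (π : Y ⟶ X), IsIntegral Y ∧ (∀ y : Y, IsRegularLocalRing (Y.presheaf.stalk y)) ∧
      IsSeparated π ∧ LocallyOfFiniteType π ∧ ∃ U : X.Opens, U ≠ ⊥ ∧ IsIso (π ∣_ U) ∧
        ∃ W : ℕ → Y.Opens, (∀ q, IsCompact (W q : Set Y)) ∧
          ∀ (R : Type) [CommRing R] [IsDomain R] [IsDiscreteValuationRing R] (α : Spec (CommRingCat.of R) ⟶ X) (q : ℕ),
            ContactLE U α q → ∃ β : Spec (CommRingCat.of R) ⟶ Y, β ≫ π = α ∧ ∀ z, β z ∈ W q :=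
  MAIN Pool.Agent.Run7.h300.SC.t_OIM Pool.Agent.Run7.h431.SC.t_GLU _root_.Run7.h596.SC.t_DCT
    _root_.Run7.h889.SC.t_SEC Pool.Agent.Run7.h292.SC.t_EQM Pool.Agent.Run7.h292.SC.t_LCR
    _root_.Run7.h596.SC.t_STK Pool.Agent.Run7.h292.SC.t_LFO _root_.Run7.h410.SC.t_DVV
    Pool.Agent.Run7.h300.SC.t_CTO Pool.Agent.Run7.h216.RB.t_PTS k (j0_field k) X f hf1 hf2 hf3
    (fun F _ _ _ n y i => Pool.Agent.Run7.h882.RB.t_NZF k F n y i)


end Pool.Agent.Run7.h275.SC
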