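import Pool.Agent.Run7.h275.S.I4

/-!
# Interface: valuation rings, units
-/

set_option autoImplicit false
set_option linter.unusedVariables false

namespace Pool.Agent.Run7.h275.SC

open AlgebraicGeometry CategoryTheory Pool.Agent.W418.LU2 Pool.Agent.Run7.h275.RB

/-- **VVV** A valuation ring as a valuation subring of its fraction field.  (See `DVV` in `Run7/h410/SC/DVV.lean`.  For the last
part: if `V (r) ≤ V (∏ z i)`, then `r = c * ∏ z i` with `c ∈ R`, `z i ∈ 𝔪`, or `r = 0`.) -/
def S_VVV : Prop := ∀ (R : Type) [CommRing R] [IsDomain R] [ValuationRing R],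
  ∃ V : ValuationSubring (FractionRing R), (∀ r : R, algebraMap R (FractionRing R) r ∈ V) ∧
    (∀ x ∈ V, ∃ r : R, algebraMap R (FractionRing R) r = x) ∧
    (∀ (r : R) (q : ℕ), r ∉ IsLocalRing.maximalIdeal R ^ (q + 1) → OrdLe V (algebraMap R (FractionRing R) r) q)

/-- **UEQ** Units.  Proof: the stalk at `i z = j w` is mapped injectively to `F` (by both charts in the same way, `gen B ≫ i = gen C ≫ j`);
`f⁻¹ ∈ C`; `f` is an element of the stalk which divides `1` there: `f` is a germ and `f⁻¹ ∈ C` is a germ, and their product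
has the image `1` in `F`.  So `f` is a unit of `B_z`. (Or: `B_z` and `C_w` have the same image in `F`.) -/
def S_UEQ : Prop := ∀ (F : Type) [Field F] (B C : Subring F) (Y : Scheme.{0}) [IsIntegral Y] (i : Sp B ⟶ Y) (j : Sp C ⟶ Y)
  (_ : IsOpenImmersion i) (_ : IsOpenImmersion j), gen B ≫ i = gen C ≫ j → Fr B → Fr C → ∀ (z : Sp B) (w : Sp C),
  i z = j w → ∀ f : B, (f : F) ≠ 0 → (f : F)⁻¹ ∈ C → f ∉ (show PrimeSpectrum B from z).asIdeal

/-- **INJ** Points over the open set over which `π` is an isomorphism. -/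
def S_INJ : Prop := ∀ (X Y : Scheme.{0}) (π : Y ⟶ X) (U : X.Opens), IsIso (π ∣_ U) → ∀ y y' : Y, π y ∈ U → π y = π y' →
  y = y'

end Pool.Agent.Run7.h275.SC
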