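import Pool.Agent.Run7.h275.S.MA
import Pool.Agent.Run7.h275.S.I5
import Pool.Agent.Run7.h275.RB24

/-!
# The main theorem on schemes, with normal crossings
-/

set_option autoImplicit false
set_option linter.unusedVariables false

namespace Pool.Agent.Run7.h275.SC

open AlgebraicGeometry CategoryTheory Pool.Agent.W418.LU2 Pool.Agent.Run7.h275.RB Pool.Agent.Run7.h275.RL

lemma ncf_of_ncz {F : Type} [Field F] {Q : Subring F} {f : F} (h : NCz Q f) : NCf Q f := h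

/-- A nonempty open subset of `X` contains the spectrum of a localisation of a chart. -/
lemma small_open {F : Type} [Field F] {X : Scheme.{0}} [IsIntegral X] {A : Subring F} (j : Sp A ⟶ X)
    (hj : IsOpenImmersion j) {V₀ : X.Opens} (hV₀ : V₀ ≠ ⊥) :
    ∃ g : A, g ≠ 0 ∧ ∀ z : Sp A, g ∉ (show PrimeSpectrum A from z).asIdeal → j z ∈ V₀ := by
  have h1 : genericPoint X ∈ V₀ := (genericPoint_spec X).mem_open_set_iff V₀.isOpen |>.2 (by
    obtain ⟨x, hx⟩ : (V₀ : Set X).Nonempty := by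
      rw [Set.nonempty_iff_ne_empty]
      intro h
      exact hV₀ (TopologicalSpace.Opens.ext h)
    exact ⟨x, trivial, hx⟩)
  let z₀ : Sp A := (⊥ : PrimeSpectrum A)
  have h2 : j z₀ ∈ V₀ := by
    have h3 : IsOpen (j ⁻¹ᵁ V₀ : Set (Sp A)) := (j ⁻¹ᵁ V₀).isOpen
    obtain ⟨w, hw⟩ : (Set.range j ∩ V₀ : Set X).Nonempty := by
      have h4 : genericPoint X ∈ j.opensRange := by
        refine (genericPoint_spec X).mem_open_set_iff j.opensRange.isOpen |>.2 ⟨j z₀, trivial, ⟨z₀, rfl⟩⟩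
      exact ⟨genericPoint X, h4, h1⟩
    obtain ⟨⟨u, rfl⟩, hu⟩ := hw
    have h5 : z₀ ⤳ u := (PrimeSpectrum.le_iff_specializes (⊥ : PrimeSpectrum A) (show PrimeSpectrum A from u)).1 bot_le
    exact h5.mem_open h3 hu
  have h3 : IsOpen {z : PrimeSpectrum A | j (show Sp A from z) ∈ V₀} := (j ⁻¹ᵁ V₀).isOpen
  obtain ⟨_, ⟨g, rfl⟩, hg, hgV⟩ := PrimeSpectrum.isTopologicalBasis_basic_opens.exists_subset_of_mem_open h2 h3
  refine ⟨g, fun h0 => hg (by rw [h0]; exact Ideal.zero_mem _), fun z hz => hgV hz⟩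

theorem MAINL (hOIM : S_OIM) (hGLU : S_GLU) (hDCT : S_DCT) (hSEC : S_SEC) (hEQM : S_EQM) (hLCR : S_LCR)
    (hSTK : S_STK) (hLFO : S_LFO) (hVVV : S_VVV) (hCTO : S_CTO) (hPTS : S_PTS)
    (hSNS : S_SNS) (hRNG : S_RNG) (hINJ : S_INJ)
    (O : Type) [CommRing O] [IsDomain O] [IsRegularRing O] (hJ : J0 O)
    (X : Scheme.{0}) [IsIntegral X] (f : X ⟶ Spec (CommRingCat.of O)) (hf1 : LocallyOfFiniteType f)
    (hf2 : QuasiCompact f) (hf3 : IsSeparated f)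
    (hMnz : ∀ (F : Type) [Field F] [Algebra O F] (_ : F ≃+* X.functionField) (n : ℕ) (y : Fin n → F) (i : Fin n),
      ∃ δ, δ ≠ 0 ∧ Mn O y i δ)
    (V₀ : X.Opens) (hV₀ : V₀ ≠ ⊥) :
    ∃ (Y : Scheme.{0}) (π : Y ⟶ X), IsIntegral Y ∧ (∀ y : Y, IsRegularLocalRing (Y.presheaf.stalk y)) ∧
      IsSeparated π ∧ LocallyOfFiniteType π ∧ ∃ U : X.Opens, U ≤ V₀ ∧ U ≠ ⊥ ∧ IsIso (π ∣_ U) ∧
        (∀ y : Y, NCat π U y) ∧ ∃ W : ℕ → Y.Opens, Monotone W ∧ (∀ q, IsCompact (W q : Set Y)) ∧ π ⁻¹ᵁ U ≤ W 0 ∧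
          ∀ (R : Type) [CommRing R] [IsDomain R] [ValuationRing R] (α : Spec (CommRingCat.of R) ⟶ X) (q : ℕ),
            ContactLE U α q → ∃ β : Spec (CommRingCat.of R) ⟶ Y, β ≫ π = α ∧ ∀ z, β z ∈ W q := by
  classical
  obtain ⟨F, _, _, e, g₀, r, A, j, hA, hcov, hg₀f, hg₀⟩ := hDCT O X f hf1 hf2
  have hr : 0 < r := by
    obtain ⟨i, -⟩ := hcov (genericPoint X)
    exact lt_of_le_of_lt (Nat.zero_le _) i.2
  obtain ⟨g₁, hg₁0, hg₁⟩ := small_open (j ⟨0, hr⟩) (hA ⟨0, hr⟩).2.2.1 hV₀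
  obtain ⟨𝓑, hB1, hB2, hB3, B₀, hB₀, hG₀, hNC, hAB₀, hopen, T, hTB, harc⟩ := COREL hPTS hJ
    (fun n y i => hMnz F e n y i) hr A (fun i => (hA i).1) (fun i => (hA i).2.1) {(g₁ : F)⁻¹}
  have hg₁B : (g₁ : F)⁻¹ ∈ B₀ := hG₀ _ (Finset.mem_singleton_self _)
  have hFam : Fam 𝓑 := fam_of (O := O) (fun B hB => (hB1 B hB).1) (fun B hB => (hB1 B hB).2.1) hB2 hB3 ⟨B₀, hB₀⟩
  -- the morphisms to `X`
  have hmor : ∀ B, B ∈ 𝓑 → ∃ h : Sp B ⟶ X, ∀ i (hi : A i ≤ B), inc hi ≫ j i = h := by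
    intro B hB
    obtain ⟨i, hi⟩ := (hB1 B hB).2.2.1
    refine ⟨inc hi ≫ j i, fun i' hi' => ?_⟩
    refine hEQM F O B X f _ _ hf3 ?_
    rw [← Category.assoc, ← Category.assoc, gen_inc, gen_inc, (hA i).2.2.2, (hA i').2.2.2]
  choose h hh using hmor
  have hgh : ∀ B (hB : B ∈ 𝓑), gen B ≫ h B hB = g₀ := by
    intro B hB
    obtain ⟨i, hi⟩ := (hB1 B hB).2.2.1
    rw [← hh B hB i hi, ← Category.assoc, gen_inc, (hA i).2.2.2]
  obtain ⟨Y, π, ι, hY1, hY2, hι, hιc, hιs, hlft⟩ := hGLU hOIM F 𝓑 hFam X h (by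
    intro B C hB hC hBC
    refine hEQM F O C X f _ _ hf3 ?_
    rw [← Category.assoc, gen_inc, hgh, hgh])
  have hsep : IsSeparated π := inferInstance
  -- the open set
  have hB₀o : IsOpenImmersion (h B₀ hB₀) := by
    let i : Fin r := ⟨0, hr⟩
    obtain ⟨b, ⟨hbA, hb0, hbB⟩, hBeq⟩ := hopen i
    have h1 : IsOpenImmersion (inc (hAB₀ i)) := by
      refine hOIM F (A i) B₀ (hAB₀ i) ⟨{b⁻¹}, ?_⟩ ?_
      · rw [Finset.coe_singleton]
        exact hBeq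
      · intro V hV
        have hbV : b⁻¹ ∈ V := hV (by rw [hBeq]; exact Subring.subset_closure (Or.inr rfl))
        rw [hBeq, lo_adj ((hAB₀ i).trans hV) hbA hb0 hbV]
    have h2 := (hA i).2.2.1
    rw [← hh B₀ hB₀ i (hAB₀ i)]
    infer_instance
  have hIso : IsIso (π ∣_ (h B₀ hB₀).opensRange) := hSEC X Y (Sp B₀) π (h B₀ hB₀) (ι B₀ hB₀) hY1 hsep
    ⟨gen B₀ (⊥ : PrimeSpectrum F)⟩ hB₀o (hι B₀ hB₀).1 (hι B₀ hB₀).2
  let Wr : ∀ B, B ∈ 𝓑 → Y.Opens := fun B hB => have := (hι B hB).1; (ι B hB).opensRange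
  have hWr : ∀ B hB (z : Sp B), ι B hB z ∈ Wr B hB := fun B hB z => ⟨z, rfl⟩
  have hWc : ∀ B hB, IsCompact (Wr B hB : Set Y) := by
    intro B hB
    have := (hι B hB).1
    change IsCompact ((ι B hB).opensRange : Set Y)
    rw [Scheme.Hom.coe_opensRange]
    exact isCompact_range (ι B hB).continuous
  refine ⟨Y, π, hY1, hSTK F 𝓑 Y ι (fun B hB => (hι B hB).1) hιs (fun B hB V hV => (hB1 B hB).2.2.2 V hV), hsep, ?_,
    (h B₀ hB₀).opensRange, ?_, ?_, hIso, ?_,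
    fun q => Wr B₀ hB₀ ⊔ ⨆ B : {B // ∃ q' ≤ q, B ∈ T q'}, Wr B.1 (by
      obtain ⟨q', -, h2⟩ := B.2
      exact hTB q' B.1 h2), ?_, ?_, ?_, ?_⟩
  · refine hlft fun B hB => ?_
    have h1 : LocallyOfFiniteType (h B hB ≫ f) := by
      refine hLFO O F B (hB1 B hB).1 _ ?_
      rw [← Category.assoc, hgh, hg₀f]
    exact locallyOfFiniteType_of_comp (h B hB) f
  · -- contained in `V₀`
    rintro x ⟨w, rfl⟩
    let i : Fin r := ⟨0, hr⟩
    rw [← hh B₀ hB₀ i (hAB₀ i), Scheme.Hom.comp_apply]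
    refine hg₁ _ fun hmem => ?_
    have h1 : (⟨(g₁ : F), hAB₀ i g₁.2⟩ : B₀) ∈ (show PrimeSpectrum B₀ from w).asIdeal := hmem
    have h2 : (⟨(g₁ : F)⁻¹, hg₁B⟩ : B₀) * ⟨(g₁ : F), hAB₀ i g₁.2⟩ = 1 :=
      Subtype.ext (inv_mul_cancel₀ fun h => hg₁0 (Subtype.ext h))
    have h3 := Ideal.mul_mem_left _ (⟨(g₁ : F)⁻¹, hg₁B⟩ : B₀) h1
    rw [h2] at h3
    exact (show PrimeSpectrum B₀ from w).isPrime.ne_top ((Ideal.eq_top_iff_one _).2 h3)
  · intro h0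
    have h1 : h B₀ hB₀ (gen B₀ (⊥ : PrimeSpectrum F)) ∈ (h B₀ hB₀).opensRange := ⟨_, rfl⟩
    rw [h0] at h1
    exact h1
  · -- normal crossings
    intro y
    obtain ⟨B, hB, z, rfl⟩ := hιs y
    obtain ⟨i, hi⟩ := (hB1 B hB).2.2.1
    obtain ⟨f', ⟨hf'A, hf'0, -⟩, hB₀f'⟩ := hopen i
    refine hSNS F X Y π (A i) B hi (j i) (ι B hB) (hA i).2.2.1 (hι B hB).1 ?_ ⟨f', hf'A⟩ _ ?_ ?_ z
    · rw [(hι B hB).2, hh B hB i hi]
    · exact hRNG F X (A i) B₀ (hAB₀ i) (j i) (h B₀ hB₀) (hA i).2.2.1 hB₀o (hh B₀ hB₀ i (hAB₀ i)).symm ⟨f', hf'A⟩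
        hf'0 hB₀f'
    · intro V hV
      exact ncf_of_ncz (hNC B hB i hi f' hf'A hf'0 hB₀f' V hV)
  · -- monotone
    intro q q' hqq
    refine sup_le_sup le_rfl (iSup_le fun B => ?_)
    obtain ⟨B, q₁, h1, h2⟩ := B
    exact le_iSup (fun B : {B // ∃ q₁ ≤ q', B ∈ T q₁} => Wr B.1 (by
      obtain ⟨q', -, h2⟩ := B.2
      exact hTB q' B.1 h2)) ⟨B, q₁, h1.trans hqq, h2⟩
  · intro q
    rw [TopologicalSpace.Opens.coe_sup, TopologicalSpace.Opens.coe_iSup]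
    have hfin : Finite {B // ∃ q' ≤ q, B ∈ T q'} := by
      have h1 : {B | ∃ q' ≤ q, B ∈ T q'} ⊆ ((Finset.range (q + 1)).biUnion T : Finset (Subring F)) := by
        rintro B ⟨q', h1, h2⟩
        exact Finset.mem_coe.2 (Finset.mem_biUnion.2 ⟨q', Finset.mem_range.2 (Nat.lt_succ_of_le h1), h2⟩)
      exact (Set.Finite.subset (Finset.finite_toSet _) h1).to_subtype
    exact (hWc _ _).union (isCompact_iUnion fun B => hWc _ _)
  · -- the inverse image of `U`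
    intro y hy
    obtain ⟨w, hw⟩ := hy
    refine TopologicalSpace.Opens.mem_sup.2 (Or.inl ?_)
    have h1 : ι B₀ hB₀ w = y := by
      refine (hINJ X Y π _ hIso y (ι B₀ hB₀ w) ⟨w, hw⟩ ?_).symm
      rw [← Scheme.Hom.comp_apply, (hι B₀ hB₀).2]
      exact hw.symm
    rw [← h1]
    exact hWr _ _ _
  · rintro R _ _ _ α q ⟨V, hV, ρ, g, hgU, hρα, hρg⟩
    obtain ⟨i, β₀, hβ₀⟩ := hLCR R X r (fun i => Sp (A i)) j (fun i => (hA i).2.2.1) hcov α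
    obtain ⟨φ, rfl⟩ := Spec.map_surjective β₀
    have hρ0 : ρ g ≠ 0 := fun h0 => hρg (by rw [h0]; exact Ideal.zero_mem _)
    obtain ⟨b, hb0, hbB, v, hv, hbv⟩ := hCTO F X g₀ (A i) B₀ (j i) (h B₀ hB₀) (hAB₀ i) (hA i).2.1 (hA i).2.2.1
      (hA i).2.2.2 hB₀o (hgh B₀ hB₀) R φ.hom V hV ρ g hgU (by rw [hρα]; exact hβ₀.symm) hρ0
    obtain ⟨VR, hV1, hV2, hV3⟩ := hVVV R
    have hord : OrdLe VR (algebraMap R (FractionRing R) (φ.hom b)) q := by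
      refine hV3 _ q ?_
      rw [hbv]
      exact fun h1 => hρg ((Ideal.unit_mul_mem_iff_mem _ hv).1 h1)
    obtain ⟨B, hB, hAB, βK, hβK⟩ := harc q (FractionRing R) VR i ((algebraMap R (FractionRing R)).comp φ.hom)
      (fun a => hV1 _) b ⟨b.2, hb0, hbB⟩ hord
    -- the identification of `R` with the valuation ring
    let κ : R →+* VR := (algebraMap R (FractionRing R)).codRestrict VR.toSubring hV1
    have hκ : Function.Bijective κ := by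
      constructor
      · intro x z hxz
        exact IsFractionRing.injective R (FractionRing R) (congrArg Subtype.val hxz)
      · rintro ⟨x, hx⟩
        obtain ⟨z, hz⟩ := hV2 x hx
        exact ⟨z, Subtype.ext hz⟩
    let κe : R ≃+* VR := RingEquiv.ofBijective κ hκ
    let βR : B →+* R := κe.symm.toRingHom.comp βK
    have hβR : βR.comp (Subring.inclusion hAB) = φ.hom := by
      ext a
      change κe.symm (βK ⟨a, hAB a.2⟩) = φ.hom a
      rw [RingEquiv.symm_apply_eq]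
      apply Subtype.ext
      exact hβK a (hAB a.2)
    refine ⟨Spec.map (CommRingCat.ofHom βR) ≫ ι B (hTB q B hB), ?_, ?_⟩
    · rw [Category.assoc, (hι B (hTB q B hB)).2, ← hh B (hTB q B hB) i hAB, ← Category.assoc, ← hβ₀]
      congr 1
      unfold inc
      rw [← Spec.map_comp, ← CommRingCat.ofHom_comp, hβR]
      rfl
    · intro z
      refine TopologicalSpace.Opens.mem_sup.2 (Or.inr ?_)
      rw [TopologicalSpace.Opens.mem_iSup]
      exact ⟨⟨B, q, le_rfl, hB⟩, Spec.map (CommRingCat.ofHom βR) z, by rw [Scheme.Hom.comp_apply]⟩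

end Pool.Agent.Run7.h275.SC
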