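import Pool.Agent.Run7.h275.S.MB
import Pool.Agent.Run7.h275.S.MC
import Pool.Agent.Run7.h275.RB25

/-!
# The absolute version, with normal crossings
-/

set_option autoImplicit false
set_option linter.unusedVariables false

namespace Pool.Agent.Run7.h275.SC

open AlgebraicGeometry CategoryTheory Pool.Agent.W418.LU2 Pool.Agent.H918R2.Quad Pool.Agent.Run7.h275.RB
  Pool.Agent.Run7.h275.RL

theorem MAINBL (hOIM : S_OIM) (hGLU : S_GLU) (hDCT : S_DCT) (hSTK : S_STK) (hLFO : S_LFO) (hDVV : S_DVV)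
    (hFFD : S_FFD) (hPTS : S_PTS) (hSNS : S_SNS) (hRNG : S_RNG) (hUEQ : S_UEQ)
    (O : Type) [CommRing O] [IsDomain O] [IsRegularRing O] (hJ : J0 O)
    (X : Scheme.{0}) [IsIntegral X] (f : X ⟶ Spec (CommRingCat.of O)) (hf1 : LocallyOfFiniteType f)
    (hf2 : QuasiCompact f)
    (hMnz : ∀ (F : Type) [Field F] [Algebra O F] (_ : F ≃+* X.functionField) (n : ℕ) (y : Fin n → F) (i : Fin n),
      ∃ δ, δ ≠ 0 ∧ Mn O y i δ) :
    ∃ (Y : Scheme.{0}) (_ : IsIntegral Y) (g : Y ⟶ Spec (CommRingCat.of O)),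
      IsSeparated g ∧ LocallyOfFiniteType g ∧ (∀ y : Y, IsRegularLocalRing (Y.presheaf.stalk y)) ∧
      Nonempty (Y.functionField ≃+* X.functionField) ∧ ∃ U : Y.Opens, U ≠ ⊥ ∧
        IsCompact (U : Set Y) ∧ (∀ y : Y, NCat (𝟙 Y) U y) ∧
        ∀ (R : Type) [CommRing R] [IsDomain R] [IsDiscreteValuationRing R]
          (γ : Spec (CommRingCat.of (FractionRing R)) ⟶ Y) (δ : Spec (CommRingCat.of R) ⟶ Spec (CommRingCat.of O)),
          (∀ z, γ z ∈ U) → Spec.map (CommRingCat.ofHom (algebraMap R (FractionRing R))) ≫ δ = γ ≫ g →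
          ∃ β : Spec (CommRingCat.of R) ⟶ Y,
            Spec.map (CommRingCat.ofHom (algebraMap R (FractionRing R))) ≫ β = γ ∧ β ≫ g = δ := by
  classical
  obtain ⟨F, _, _, e, g₀, r, A, j, hA, hcov, hg₀f, hg₀⟩ := hDCT O X f hf1 hf2
  obtain ⟨i₀, -⟩ := hcov (genericPoint X)
  obtain ⟨n, y, hn, hy, hF⟩ := coords (hA i₀).1 (hA i₀).2.1
  obtain ⟨𝓑, hB1, hB2, hB3, B₀, hB₀, hNC, hval⟩ := COREBL hPTS hJ (fun n y i => hMnz F e n y i) hn y hy hF
  have hFam : Fam 𝓑 := fam_of (O := O) (fun B hB => (hB1 B hB).1) (fun B hB => (hB1 B hB).2.1) hB2 hB3 ⟨B₀, hB₀⟩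
  -- the structure morphisms
  let hs : ∀ B, B ∈ 𝓑 → (O →+* B) := fun B hB => (algebraMap O F).codRestrict B fun o => (hB1 B hB).1.base o
  obtain ⟨Y, g, ι, hY1, hY2, hι, hιc, hιs, hlft⟩ := hGLU hOIM F 𝓑 hFam (Spec (CommRingCat.of O))
    (fun B hB => Spec.map (CommRingCat.ofHom (hs B hB))) (by
      intro B C hB hC hBC
      unfold inc
      rw [← Spec.map_comp, ← CommRingCat.ofHom_comp]
      rfl)
  have hsep : IsSeparated g := inferInstance
  have hιB₀ := (hι B₀ hB₀).1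
  refine ⟨Y, hY1, g, hsep, ?_, hSTK F 𝓑 Y ι (fun B hB => (hι B hB).1) hιs (fun B hB V hV => (hB1 B hB).2.2 V hV), ?_,
    (ι B₀ hB₀).opensRange, ?_, ?_, ?_, ?_⟩
  · refine hlft fun B hB => hLFO O F B (hB1 B hB).1 _ ?_
    unfold gen
    rw [← Spec.map_comp, ← CommRingCat.ofHom_comp]
    rfl
  · obtain ⟨e'⟩ := hFFD F B₀ Y (ι B₀ hB₀) (hB1 B₀ hB₀).2.1 hιB₀
    exact ⟨e'.trans e⟩
  · intro h0
    have h1 : ι B₀ hB₀ (gen B₀ (⊥ : PrimeSpectrum F)) ∈ (ι B₀ hB₀).opensRange := ⟨_, rfl⟩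
    rw [h0] at h1
    exact h1
  · rw [Scheme.Hom.coe_opensRange]
    exact isCompact_range (ι B₀ hB₀).continuous
  · -- normal crossings
    intro y
    obtain ⟨B, hB, z, rfl⟩ := hιs y
    have hιB := (hι B hB).1
    obtain ⟨A, hAB, hAB₀, f', hf'A, hf'0, hB₀f', hnc⟩ := hNC B hB
    have hsup : B ⊔ B₀ ∈ 𝓑 := hB2 B hB B₀ hB₀
    have h1 := hιc B (B ⊔ B₀) hB hsup le_sup_left
    have h2 := hιc B₀ (B ⊔ B₀) hB₀ hsup le_sup_right
    have hcl : B ⊔ B₀ = Subring.closure ((B : Set F) ∪ {f'⁻¹}) := by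
      apply le_antisymm
      · refine sup_le (fun z hz => Subring.subset_closure (Or.inl hz)) ?_
        rw [hB₀f']
        exact Subring.closure_mono (Set.union_subset_union_left _ hAB)
      · refine Subring.closure_le.2 ?_
        rintro z (hz | hz)
        · exact le_sup_left (a := B) (b := B₀) hz
        · refine le_sup_right (a := B) (b := B₀) ?_
          rw [hB₀f']
          exact Subring.subset_closure (Or.inr hz)
    refine hSNS F Y Y (𝟙 Y) B B le_rfl (ι B hB) (ι B hB) hιB hιB ?_ ⟨f', hAB hf'A⟩ _ ?_ (fun V hV =>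
      ncf_of_ncz (hnc V hV)) z
    · rw [Category.comp_id]
      exact (hιc B B hB hB le_rfl).symm
    · intro z
      have hopi : IsOpenImmersion (inc (le_sup_left : B ≤ B ⊔ B₀)) := by
        have h3 : IsOpenImmersion (inc (le_sup_left : B ≤ B ⊔ B₀) ≫ ι B hB) := by
          rw [h1]
          exact (hι _ hsup).1
        exact IsOpenImmersion.of_comp _ (ι B hB)
      have h4 := hRNG F (Sp B) B (B ⊔ B₀) le_sup_left (𝟙 (Sp B)) (inc le_sup_left) inferInstance hopi
        (Category.comp_id _).symm ⟨f', hAB hf'A⟩ hf'0 hcl z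
      constructor
      · rintro ⟨w, hw⟩
        refine hUEQ F B B₀ Y (ι B hB) (ι B₀ hB₀) hιB hιB₀ ?_ (hB1 B hB).2.1 (hB1 B₀ hB₀).2.1 z w hw.symm _ hf'0 ?_
        · rw [← gen_inc (le_sup_left : B ≤ B ⊔ B₀), ← gen_inc (le_sup_right : B₀ ≤ B ⊔ B₀), Category.assoc,
            Category.assoc, h1, h2]
        · rw [hB₀f']
          exact Subring.subset_closure (Or.inr rfl)
      · intro hz
        obtain ⟨w, hw⟩ := h4.2 hz
        have h5 : inc (le_sup_left : B ≤ B ⊔ B₀) w = z := hw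
        refine ⟨inc (le_sup_right : B₀ ≤ B ⊔ B₀) w, ?_⟩
        rw [← h5, ← Scheme.Hom.comp_apply, ← Scheme.Hom.comp_apply, h1, h2]
  · intro R _ _ _ γ δ hγU hsq
    have hrange : Set.range γ ⊆ Set.range (ι B₀ hB₀) := by
      rintro _ ⟨z, rfl⟩
      exact hγU z
    obtain ⟨φ, hφ⟩ := Spec.map_surjective (IsOpenImmersion.lift (ι B₀ hB₀) γ hrange)
    have hφγ : Spec.map φ ≫ ι B₀ hB₀ = γ := by
      rw [hφ]
      exact IsOpenImmersion.lift_fac _ _ _
    obtain ⟨δ', rfl⟩ := Spec.map_surjective δ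
    obtain ⟨VR, hV1, hV2, hV3, hV4⟩ := hDVV R
    have hO : ∀ o : O, φ.hom (hs B₀ hB₀ o) = algebraMap R (FractionRing R) (δ'.hom o) := by
      rw [← hφγ, Category.assoc, (hι B₀ hB₀).2, ← Spec.map_comp, ← Spec.map_comp] at hsq
      have h1 := Spec.map_injective hsq
      intro o
      have h2 := congrArg (fun ψ => ψ.hom o) h1
      exact h2.symm
    obtain ⟨B, hB, β, γ', hγ1, hγ2⟩ := hval (FractionRing R) VR (by
      intro x hx hx0
      obtain ⟨r, rfl⟩ := hV2 x hx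
      obtain ⟨q, hq⟩ := hV4 r (by rintro rfl; exact hx0 (map_zero _))
      exact ⟨q, hV3 r q hq⟩) φ.hom (by
      intro o h
      have h1 := hO o
      change φ.hom (⟨algebraMap O F o, h⟩ : B₀) ∈ VR
      have h2 : φ.hom (⟨algebraMap O F o, h⟩ : B₀) = φ.hom (hs B₀ hB₀ o) := rfl
      rw [h2, h1]
      exact hV1 _)
    let κ : R →+* VR := (algebraMap R (FractionRing R)).codRestrict VR.toSubring hV1
    have hκ : Function.Bijective κ := by
      constructor
      · intro x z hxz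
        exact IsFractionRing.injective R (FractionRing R) (congrArg Subtype.val hxz)
      · rintro ⟨x, hx⟩
        obtain ⟨z, hz⟩ := hV2 x hx
        exact ⟨z, Subtype.ext hz⟩
    let κe : R ≃+* VR := RingEquiv.ofBijective κ hκ
    let βR : B →+* R := κe.symm.toRingHom.comp β
    have hβK : ∀ b : B, algebraMap R (FractionRing R) (βR b) = ((β b : VR) : FractionRing R) := by
      intro b
      have h1 : κe (κe.symm (β b)) = β b := RingEquiv.apply_symm_apply _ _
      exact congrArg Subtype.val h1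
    have hsup : B ⊔ B₀ ∈ 𝓑 := hB2 B hB B₀ hB₀
    have e1 : (algebraMap R (FractionRing R)).comp βR = γ'.comp (Subring.inclusion le_sup_left) := by
      ext b
      change algebraMap R (FractionRing R) (βR b) = γ' ⟨b, _⟩
      rw [hβK]
      exact (hγ1 b b.2 _).symm
    have e2 : φ.hom = γ'.comp (Subring.inclusion le_sup_right) := by
      ext b
      exact (hγ2 b b.2 _).symm
    refine ⟨Spec.map (CommRingCat.ofHom βR) ≫ ι B hB, ?_, ?_⟩
    · rw [← Category.assoc, ← Spec.map_comp, ← CommRingCat.ofHom_comp, e1, CommRingCat.ofHom_comp, Spec.map_comp,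
        Category.assoc]
      have h1 := hιc B (B ⊔ B₀) hB hsup le_sup_left
      have h2 := hιc B₀ (B ⊔ B₀) hB₀ hsup le_sup_right
      unfold inc at h1 h2
      rw [h1, ← h2, ← hφγ, ← Category.assoc, ← Spec.map_comp, ← CommRingCat.ofHom_comp, ← e2]
      rfl
    · rw [Category.assoc, (hι B hB).2, ← Spec.map_comp]
      congr 1
      ext o
      change βR (hs B hB o) = δ'.hom o
      apply IsFractionRing.injective R (FractionRing R)
      rw [hβK, ← hO]
      have h1 : (((β (hs B hB o) : VR)) : FractionRing R) =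
          γ' ⟨algebraMap O F o, le_sup_left (a := B) (b := B₀) ((hB1 B hB).1.base o)⟩ :=
        (hγ1 _ ((hB1 B hB).1.base o) _).symm
      rw [h1]
      exact hγ2 _ ((hB1 B₀ hB₀).1.base o) _

end Pool.Agent.Run7.h275.SC
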