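import Pool.Agent.Run7.h275.S.FA
import Pool.Agent.Run7.h275.S.MD
import Pool.Agent.Run7.h216.SC.SNS
import Pool.Agent.Run7.h646.SC.RNG

/-!
# The absolute theorem over the integers
-/

set_option autoImplicit false
set_option linter.unusedVariables false

namespace Pool.Agent.Run7.h275.SC

open AlgebraicGeometry CategoryTheory Pool.Agent.W418.LU2 Pool.Agent.Run7.h275.RB Pool.Agent.Run7.h275.RL

/-- The absolute theorem, over a base `O`. -/
theorem t_MAINBO (hUEQ : S_UEQ) (O : Type) [CommRing O] [IsDomain O] [IsRegularRing O] (hJ : J0 O)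
    (X : Scheme.{0}) [IsIntegral X] (f : X ⟶ Spec (CommRingCat.of O)) (hf1 : LocallyOfFiniteType f)
    (hf2 : QuasiCompact f)
    (hMnz : ∀ (F : Type) [Field F] [Algebra O F] (_ : F ≃+* X.functionField) (n : ℕ) (y : Fin n → F) (i : Fin n),
      ∃ δ, δ ≠ 0 ∧ Mn O y i δ) :
    ∃ (Y : Scheme.{0}) (_ : IsIntegral Y) (g : Y ⟶ Spec (CommRingCat.of O)),
      IsSeparated g ∧ LocallyOfFiniteType g ∧ (∀ y : Y, IsRegularLocalRing (Y.presheaf.stalk y)) ∧
      Nonempty (Y.functionField ≃+* X.functionField) ∧ ∃ U : Y.Opens, U ≠ ⊥ ∧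
        IsCompact (U : Set Y) ∧ (∀ y : Y, NCat (𝟙 Y) U y) ∧
        ∀ (R : Type) [CommRing R] [IsDomain R] [IsDiscreteValuationRing R]
          (γ : Spec (CommRingCat.of (FractionRing R)) ⟶ Y) (δ : Spec (CommRingCat.of R) ⟶ Spec (CommRingCat.of O)),
          (∀ z, γ z ∈ U) → Spec.map (CommRingCat.ofHom (algebraMap R (FractionRing R))) ≫ δ = γ ≫ g →
          ∃ β : Spec (CommRingCat.of R) ⟶ Y,
            Spec.map (CommRingCat.ofHom (algebraMap R (FractionRing R))) ≫ β = γ ∧ β ≫ g = δ :=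
  MAINBL Pool.Agent.Run7.h300.SC.t_OIM Pool.Agent.Run7.h431.SC.t_GLU _root_.Run7.h596.SC.t_DCT
    _root_.Run7.h596.SC.t_STK Pool.Agent.Run7.h292.SC.t_LFO _root_.Run7.h410.SC.t_DVV
    _root_.Run7.h889.SC.t_FFD Pool.Agent.Run7.h216.RB.t_PTS _root_.Run7.h216.SC.t_SNS
    Pool.Agent.Run7.h646.SC.t_RNG hUEQ O hJ X f hf1 hf2 hMnz

/-- Morphisms to the spectrum of `ZMod p` are unique. -/
lemma spec_zmod_ext {S : Scheme.{0}} (p : ℕ) (a b : S ⟶ Spec (CommRingCat.of (ZMod p))) : a = b := by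
  refine (ΓSpec.adjunction.homEquiv _ _).symm.injective ?_
  apply Opposite.unop_injective
  apply CommRingCat.hom_ext
  exact Subsingleton.elim _ _

/-- **The absolute theorem over the integers.** -/
theorem t_MAINZ (hUEQ : S_UEQ) (X : Scheme.{0}) (_ : IsIntegral X) (f : X ⟶ Spec (CommRingCat.of ℤ))
    (hf1 : LocallyOfFiniteType f) (hf2 : QuasiCompact f) :
    ∃ (Y : Scheme.{0}) (_ : IsIntegral Y) (g : Y ⟶ Spec (CommRingCat.of ℤ)),
      IsSeparated g ∧ LocallyOfFiniteType g ∧ (∀ y : Y, IsRegularLocalRing (Y.presheaf.stalk y)) ∧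
      Nonempty (Y.functionField ≃+* X.functionField) ∧ ∃ U : Y.Opens, U ≠ ⊥ ∧
        IsCompact (U : Set Y) ∧ (∀ y : Y, NCat (𝟙 Y) U y) ∧
        ∀ (R : Type) [CommRing R] [IsDomain R] [IsDiscreteValuationRing R]
          (γ : Spec (CommRingCat.of (FractionRing R)) ⟶ Y), (∀ z, γ z ∈ U) →
          ∃ β : Spec (CommRingCat.of R) ⟶ Y,
            Spec.map (CommRingCat.ofHom (algebraMap R (FractionRing R))) ≫ β = γ := by
  obtain ⟨p, hp⟩ := CharP.exists X.functionField
  rcases (CharP.char_is_prime_or_zero X.functionField p).symm with rfl | hprime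
  · -- characteristic zero
    have hc0 : CharZero X.functionField := CharP.charP_to_charZero _
    obtain ⟨Y, hY, g, h1, h2, h3, h4, U, h5, h6, h7, h8⟩ := t_MAINBO hUEQ ℤ j0_int X f hf1 hf2 (by
      intro F _ _ e n y i
      have hF0 : CharZero F := (e : F →+* X.functionField).charZero
      exact Pool.Agent.Run7.h637.RB.NZZ ℤ F (by
        have : (algebraMap ℤ F) = Int.castRingHom F := Subsingleton.elim _ _
        rw [this]
        exact Int.cast_injective) n y i)
    refine ⟨Y, hY, g, h1, h2, h3, h4, U, h5, h6, h7, ?_⟩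
    intro R _ _ _ γ hγ
    obtain ⟨β, hβ, -⟩ := h8 R γ (Spec.map (CommRingCat.ofHom (Int.castRingHom R))) hγ
      (specZIsTerminal.hom_ext _ _)
    exact ⟨β, hβ⟩
  · -- characteristic `p`
    have hfact : Fact p.Prime := ⟨hprime⟩
    have hXne : Nonempty X := inferInstance
    have hchar : CharP Γ(X, ⊤) p := by
      have hne : Nonempty (⊤ : X.Opens) := ⟨⟨hXne.some, trivial⟩⟩
      have hinj : Function.Injective (X.germToFunctionField ⊤).hom := Scheme.germToFunctionField_injective X ⊤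
      exact (RingHom.charP_iff _ hinj p).2 hp
    let φ : ZMod p →+* Γ(X, ⊤) := ZMod.castHom (dvd_refl p) _
    let f' : X ⟶ Spec (CommRingCat.of (ZMod p)) := X.toSpecΓ ≫ Spec.map (CommRingCat.ofHom φ)
    let ρ : Spec (CommRingCat.of (ZMod p)) ⟶ Spec (CommRingCat.of ℤ) :=
      Spec.map (CommRingCat.ofHom (Int.castRingHom (ZMod p)))
    have hf' : f' ≫ ρ = f := specZIsTerminal.hom_ext _ _
    have hρ : IsClosedImmersion ρ := IsClosedImmersion.spec_of_surjective _ (ZMod.ringHom_surjective _)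
    have h1' : LocallyOfFiniteType f' := by
      have : LocallyOfFiniteType (f' ≫ ρ) := by rw [hf']; exact hf1
      exact locallyOfFiniteType_of_comp f' ρ
    have h2' : QuasiCompact f' := by
      have : QuasiCompact (f' ≫ ρ) := by rw [hf']; exact hf2
      exact QuasiCompact.of_comp f' ρ
    obtain ⟨Y, hY, g, h1, h2, h3, h4, U, h5, h6, h7, h8⟩ := t_MAINBO hUEQ (ZMod p) (j0_field _) X f' h1' h2'
      (fun F _ _ _ n y i => Pool.Agent.Run7.h882.RB.t_NZF (ZMod p) F n y i)
    refine ⟨Y, hY, g ≫ ρ, inferInstance, inferInstance, h3, h4, U, h5, h6, h7, ?_⟩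
    intro R _ _ _ γ hγ
    obtain ⟨ψ, hψ⟩ := Spec.map_surjective (γ ≫ g)
    have hK : CharP (FractionRing R) p := charP_of_injective_ringHom (ψ.hom : ZMod p →+* FractionRing R).injective p
    have hR : CharP R p := (RingHom.charP_iff (algebraMap R (FractionRing R)) (IsFractionRing.injective R _) p).2 hK
    obtain ⟨β, hβ, -⟩ := h8 R γ (Spec.map (CommRingCat.ofHom (ZMod.castHom (dvd_refl p) R))) hγ
      (spec_zmod_ext p _ _)
    exact ⟨β, hβ⟩

end Pool.Agent.Run7.h275.SC
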