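import Pool.Agent.Run7.h275.S.I0

/-!
# Interface: models with a given generic fibre
-/

set_option autoImplicit false
set_option linter.unusedVariables false

namespace Pool.Agent.Run7.h275.SC

open AlgebraicGeometry CategoryTheory CategoryTheory.Limits Pool.Agent.W418.LU2 Pool.Agent.Run7.h275.RB

/-- The chart `E[y_j / y_i]` of the projective variety with the homogeneous coordinates `y`. -/
def ch (E : Type) {F : Type} [CommRing E] [Field F] [Algebra E F] {n : ℕ} (y : Fin n → F) (i : Fin n) : Subring F :=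
  (Algebra.adjoin E (Set.range fun j => y j / y i)).toSubring

/-- **PRJ** The function field and the homogeneous coordinates of an integral projective scheme over a field, which is
given as in the frozen statement S00205.  Proof: we may assume that `X = Proj 𝒜`; `F` is the function field (all basic open sets
`D₊(x)`, `x ∈ 𝒜 1`, which are not empty contain the generic point, `Γ(D₊(x)) = 𝒜_(x) → F` is injective); let `x_0, …` be the elements of the
finite set of generators with `D₊(x) ≠ ∅` (the others are nilpotent, and they vanish in `𝒜_(x_i)`), `y_j = x_j / x_0`. -/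
def S_PRJ : Prop := ∀ (E : Type) [Field E] (X : Scheme.{0}) [IsIntegral X] (f : X ⟶ Spec (CommRingCat.of E)),
  (∃ (A : Type) (_ : CommRing A) (_ : Algebra E A) (𝒜 : ℕ → Submodule E A) (_ : GradedAlgebra 𝒜),
    (∀ a ∈ 𝒜 0, ∃ q : E, algebraMap E A q = a) ∧
    (∃ s : Finset A, (∀ a ∈ s, a ∈ 𝒜 1) ∧ Algebra.adjoin E (s : Set A) = ⊤) ∧ Nonempty (X ≅ Proj 𝒜)) →
  ∃ (F : Type) (_ : Field F) (_ : Algebra E F) (g₀ : Spec (CommRingCat.of F) ⟶ X) (n : ℕ) (y : Fin n → F)
    (j : ∀ i, Sp (ch E y i) ⟶ X), (∀ i, y i ≠ 0) ∧ (∀ i, Fr (ch E y i)) ∧ (∀ i, IsOpenImmersion (j i)) ∧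
      (∀ i, gen (ch E y i) ≫ j i = g₀) ∧ (∀ x : X, ∃ i z, j i z = x) ∧
      g₀ ≫ f = Spec.map (CommRingCat.ofHom (algebraMap E F))

/-- **GFB** The generic fibre. Here `E` is the fraction field of the domain `O`; `g : Y → Spec O` is a scheme which is covered by
the spectra of the subrings `B ∈ 𝓑` of `F` (the output of `S_GLU`), `X → Spec E` is covered by the spectra of the `E`-subalgebras
`A i` of `F`, where `A i` is the localisation of `C i ∈ 𝓑` with respect to `O - 0`, and all points of the generic fibre of `Y` lie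
in the open sets `Spec (C i)`.  Proof: a morphism `ψ : X → Y` with `j i ≫ ψ = inc ≫ ι (C i)` (glueing; both are equal at the generic
point and `Y` is separated).  The induced morphism `X → Y ×_O E` is an isomorphism: `Y ×_O E` is covered by the `Spec (C i) ×_O E =
Spec (A i)`; the composition `Spec (A i) → X → Y ×_O E` is the inclusion of this open set; the preimage of `Spec (C i)` in `X` is
`Spec (A i)` (if a point of `Spec (A l)` is mapped into `Spec (C i)` then its local ring in `F` contains `C i` and `E`, so `A i`; or: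
`X → Y ×_O E` is injective, by `ι_eq` in `Y` of points and their local rings in `F`; a surjective injective local isomorphism
is an isomorphism.) -/
def S_GFB : Prop := ∀ (O E F : Type) [CommRing O] [IsDomain O] [Field E] [Algebra O E] [IsFractionRing O E] [Field F]
  [Algebra O F] [Algebra E F] [IsScalarTower O E F] (𝓑 : Set (Subring F)), Fam 𝓑 →
  ∀ (Y : Scheme.{0}) [IsIntegral Y] (g : Y ⟶ Spec (CommRingCat.of O)) (ι : ∀ B, B ∈ 𝓑 → (Sp B ⟶ Y)), Y.IsSeparated →
    (∀ B hB, IsOpenImmersion (ι B hB)) →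
    (∀ B hB, gen B ≫ ι B hB ≫ g = Spec.map (CommRingCat.ofHom (algebraMap O F))) →
    (∀ B C (hB : B ∈ 𝓑) (hC : C ∈ 𝓑) (hBC : B ≤ C), inc hBC ≫ ι B hB = ι C hC) →
    (∀ y : Y, ∃ B, ∃ hB : B ∈ 𝓑, ∃ x, ι B hB x = y) →
  ∀ (X : Scheme.{0}) [IsIntegral X] (f : X ⟶ Spec (CommRingCat.of E)) (g₀ : Spec (CommRingCat.of F) ⟶ X) (n : ℕ)
    (A C : Fin n → Subring F) (j : ∀ i, Sp (A i) ⟶ X), (∀ i, C i ∈ 𝓑) → (∀ i, C i ≤ A i) →
    (∀ i, ∀ a ∈ A i, ∃ o : O, o ≠ 0 ∧ algebraMap O F o * a ∈ C i) → (∀ i (e : E), algebraMap E F e ∈ A i) →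
    (∀ i, IsOpenImmersion (j i)) → (∀ i, gen (A i) ≫ j i = g₀) → (∀ x : X, ∃ i z, j i z = x) → IsSeparated f →
    g₀ ≫ f = Spec.map (CommRingCat.ofHom (algebraMap E F)) →
    (∀ B ∈ 𝓑, ∀ V : ValuationSubring F, B ≤ V.toSubring → (∀ e : E, algebraMap E F e ∈ V) → ∃ i, A i ≤ V.toSubring) →
    ∃ φ : X ≅ pullback g (Spec.map (CommRingCat.ofHom (algebraMap O E))), φ.hom ≫ pullback.snd _ _ = f

/-- **FLT** Flatness over a Dedekind domain. -/
def S_FLT : Prop := ∀ (O F : Type) [CommRing O] [IsDedekindDomain O] [Field F] [Algebra O F],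
  Function.Injective (algebraMap O F) → ∀ (𝓑 : Set (Subring F)) (Y : Scheme.{0}) (g : Y ⟶ Spec (CommRingCat.of O))
  (ι : ∀ B, B ∈ 𝓑 → (Sp B ⟶ Y)), (∀ B hB, IsOpenImmersion (ι B hB)) →
    (∀ B hB, gen B ≫ ι B hB ≫ g = Spec.map (CommRingCat.ofHom (algebraMap O F))) →
    (∀ y : Y, ∃ B, ∃ hB : B ∈ 𝓑, ∃ x, ι B hB x = y) → Flat g

/-- **SMR** A scheme which is smooth over a field is regular. (Perhaps it is in the libraries of the team for the pages on
regular models; any form.) -/
def S_SMR : Prop := ∀ (E : Type) [Field E] (X : Scheme.{0}) (f : X ⟶ Spec (CommRingCat.of E)), Smooth f →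
  ∀ x : X, IsRegularLocalRing (X.presheaf.stalk x)

end Pool.Agent.Run7.h275.SC
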