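import Pool.Agent.Run7.h275.S.MD
import Pool.Agent.Run7.h275.S.I2
import Pool.Agent.Run7.h275.RB27
import Pool.Agent.Run7.h431.SC.GluA

/-!
# Regular models with a given generic fibre
-/

set_option autoImplicit false
set_option linter.unusedVariables false

namespace Pool.Agent.Run7.h275.SC

open AlgebraicGeometry CategoryTheory CategoryTheory.Limits Pool.Agent.W418.LU2 Pool.Agent.H918R2.Quad
  Pool.Agent.Run7.h275.RB Pool.Agent.Run7.h275.RL

/-- The open set where `N` is invertible. -/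
lemma mem_basicOpen_nat {B : Type} [CommRing B] {Y : Scheme.{0}} (ι : Spec (CommRingCat.of B) ⟶ Y) (N : ℕ)
    (z : Spec (CommRingCat.of B)) :
    ι z ∈ Y.basicOpen (N : Γ(Y, ⊤)) ↔ (N : B) ∉ (show PrimeSpectrum B from z).asIdeal := by
  have h1 : ι ⁻¹ᵁ Y.basicOpen (N : Γ(Y, ⊤)) = (Spec (CommRingCat.of B)).basicOpen
      ((Scheme.ΓSpecIso (CommRingCat.of B)).inv (N : B)) := by
    rw [Scheme.preimage_basicOpen]
    congr 1
    rw [map_natCast]
    exact (map_natCast _ _).symm
  rw [basicOpen_eq_of_affine] at h1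
  have h2 : ι z ∈ Y.basicOpen (N : Γ(Y, ⊤)) ↔ z ∈ ι ⁻¹ᵁ Y.basicOpen (N : Γ(Y, ⊤)) := Iff.rfl
  rw [h2, h1]
  exact Iff.rfl

lemma cen_eq {F : Type} [Field F] {V : ValuationSubring F} {B : Subring F} {p : Ideal B}
    (h : Pool.Agent.Run7.h431.SC.Cen V B p) (hB : B ≤ V.toSubring) : p = Pool.Agent.Run7.h431.SC.cen V B hB := by
  ext b
  rw [h.2, (Pool.Agent.Run7.h431.SC.cen_cen V B hB).2]

/-- The centre of `V` on two charts is the same point. -/
lemma cen_pt {F : Type} [Field F] {Y : Scheme.{0}} {B C : Subring F} (V : ValuationSubring F) (hB : B ≤ V.toSubring)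
    (hC : C ≤ V.toSubring) (i : Sp B ⟶ Y) (j : Sp C ⟶ Y) (k : Sp (B ⊔ C) ⟶ Y) (h1 : inc le_sup_left ≫ i = k)
    (h2 : inc le_sup_right ≫ j = k) :
    i (show Sp B from (⟨Pool.Agent.Run7.h431.SC.cen V B hB, inferInstance⟩ : PrimeSpectrum B)) =
      j (show Sp C from (⟨Pool.Agent.Run7.h431.SC.cen V C hC, inferInstance⟩ : PrimeSpectrum C)) := by
  have hS : B ⊔ C ≤ V.toSubring := sup_le hB hC
  let w : Sp (B ⊔ C) := (⟨Pool.Agent.Run7.h431.SC.cen V (B ⊔ C) hS, inferInstance⟩ : PrimeSpectrum (B ⊔ C : Subring F))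
  have e1 : inc (le_sup_left : B ≤ B ⊔ C) w =
      (show Sp B from (⟨Pool.Agent.Run7.h431.SC.cen V B hB, inferInstance⟩ : PrimeSpectrum B)) := rfl
  have e2 : inc (le_sup_right : C ≤ B ⊔ C) w =
      (show Sp C from (⟨Pool.Agent.Run7.h431.SC.cen V C hC, inferInstance⟩ : PrimeSpectrum C)) := rfl
  rw [← e1, ← e2, ← Scheme.Hom.comp_apply, ← Scheme.Hom.comp_apply, h1, h2]

/-- **Regular models with a given generic fibre.** -/
theorem MAINC (hOIM : S_OIM) (hGLU : S_GLU) (hSTK : S_STK) (hLFO : S_LFO) (hVVV : S_VVV) (hPTS : S_PTS) (hSNS : S_SNS)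
    (hGFB : S_GFB) (hFLT : S_FLT)
    (O E F : Type) [CommRing O] [IsDedekindDomain O] [IsRegularRing O] [Field E] [Algebra O E] [IsFractionRing O E]
    [Field F] [Algebra O F] [Algebra E F] [IsScalarTower O E F] (hJ : J0 O)
    (X : Scheme.{0}) [IsIntegral X] (f : X ⟶ Spec (CommRingCat.of E)) (hf : IsSeparated f)
    (g₀ : Spec (CommRingCat.of F) ⟶ X) (n : ℕ) (y : Fin n → F) (j : ∀ i, Sp (ch E y i) ⟶ X)
    (hy : ∀ i, y i ≠ 0) (hFr : ∀ i, Fr (ch E y i)) (hj : ∀ i, IsOpenImmersion (j i))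
    (hgen : ∀ i, gen (ch E y i) ≫ j i = g₀) (hcov : ∀ x : X, ∃ i z, j i z = x)
    (hg₀ : g₀ ≫ f = Spec.map (CommRingCat.ofHom (algebraMap E F)))
    (N : ℕ) (hN0 : (N : F) ≠ 0)
    (hN : ∀ (i : Fin n) (V : ValuationSubring F), Cn O V → (∀ j, y j / y i ∈ V) →
      ∃ δ, Mn O y i δ ∧ V.valuation (N : F) ≤ V.valuation δ) :
    ∃ (Y : Scheme.{0}) (g : Y ⟶ Spec (CommRingCat.of O)), IsIntegral Y ∧
      (∀ y : Y, IsRegularLocalRing (Y.presheaf.stalk y)) ∧ IsSeparated g ∧ LocallyOfFiniteType g ∧ Flat g ∧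
      (∃ φ : X ≅ pullback g (Spec.map (CommRingCat.ofHom (algebraMap O E))), φ.hom ≫ pullback.snd _ _ = f) ∧
      (∀ y : Y, NCat (𝟙 Y) (Y.basicOpen (N : Γ(Y, ⊤))) y) ∧
      ∃ W : ℕ → Y.Opens, Monotone W ∧ (∀ q, IsCompact (W q : Set Y)) ∧ Y.basicOpen (N : Γ(Y, ⊤)) ≤ W 0 ∧
        ∀ (R : Type) [CommRing R] [IsDomain R] [ValuationRing R] (γ : Spec (CommRingCat.of (FractionRing R)) ⟶ Y)
          (δ : Spec (CommRingCat.of R) ⟶ Spec (CommRingCat.of O)) (q : ℕ),
          (N : R) ∉ IsLocalRing.maximalIdeal R ^ (q + 1) →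
          Spec.map (CommRingCat.ofHom (algebraMap R (FractionRing R))) ≫ δ = γ ≫ g →
          ∃ β : Spec (CommRingCat.of R) ⟶ Y, Spec.map (CommRingCat.ofHom (algebraMap R (FractionRing R))) ≫ β = γ ∧
            β ≫ g = δ ∧ ∀ z, β z ∈ W q := by
  classical
  obtain ⟨i₀, -⟩ := hcov (genericPoint X)
  have hn : 0 < n := lt_of_le_of_lt (Nat.zero_le _) i₀.2
  set M₀ : Submodule O F := Submodule.span O (Set.range y) with hM₀
  have hyM : ∀ i, y i ∈ M₀ := fun i => Submodule.subset_span ⟨i, rfl⟩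
  have hMM : Md M₀ := ⟨Submodule.fg_span (Set.finite_range y), y ⟨0, hn⟩, hyM _, hy _⟩
  have hinjE : Function.Injective (algebraMap O E) := IsFractionRing.injective O E
  have hinjO : Function.Injective (algebraMap O F) := by
    rw [IsScalarTower.algebraMap_eq O E F]
    exact (algebraMap E F).injective.comp hinjE
  -- denominators
  have hden : ∀ i, ∀ a ∈ ch E y i, ∃ o : O, o ≠ 0 ∧ algebraMap O F o * a ∈ (chart O M₀ (y i)).toSubring := by
    intro i a ha
    change a ∈ Algebra.adjoin E (Set.range fun j => y j / y i) at ha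
    induction ha using Algebra.adjoin_induction with
    | mem a ha =>
      obtain ⟨j, rfl⟩ := ha
      refine ⟨1, one_ne_zero, ?_⟩
      rw [map_one, one_mul]
      exact Algebra.subset_adjoin ⟨y j, hyM j, rfl⟩
    | algebraMap e =>
      obtain ⟨⟨a, s⟩, h1⟩ := IsLocalization.surj (nonZeroDivisors O) e
      refine ⟨s, nonZeroDivisors.ne_zero s.2, ?_⟩
      have h2 : algebraMap O F s * algebraMap E F e = algebraMap O F a := by
        rw [IsScalarTower.algebraMap_apply O E F, IsScalarTower.algebraMap_apply O E F, ← map_mul, mul_comm, h1]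
      rw [h2]
      exact Subalgebra.algebraMap_mem _ a
    | add a b _ _ ha hb =>
      obtain ⟨o, ho, h1⟩ := ha
      obtain ⟨o', ho', h2⟩ := hb
      refine ⟨o * o', mul_ne_zero ho ho', ?_⟩
      have : algebraMap O F (o * o') * (a + b) = algebraMap O F o' * (algebraMap O F o * a) +
          algebraMap O F o * (algebraMap O F o' * b) := by rw [map_mul]; ring
      rw [this]
      exact Subring.add_mem _ (Subring.mul_mem _ (Subalgebra.algebraMap_mem _ _) h1)
        (Subring.mul_mem _ (Subalgebra.algebraMap_mem _ _) h2)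
    | mul a b _ _ ha hb =>
      obtain ⟨o, ho, h1⟩ := ha
      obtain ⟨o', ho', h2⟩ := hb
      refine ⟨o * o', mul_ne_zero ho ho', ?_⟩
      have : algebraMap O F (o * o') * (a * b) = (algebraMap O F o * a) * (algebraMap O F o' * b) := by
        rw [map_mul]; ring
      rw [this]
      exact Subring.mul_mem _ h1 h2
  have hF : ∀ i, Frc (chart O M₀ (y i)).toSubring := by
    intro i
    refine Frc.of_le (A := ch E y i) (hFr i) ?_
    intro a ha
    obtain ⟨o, ho, h1⟩ := hden i a ha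
    have ho' : algebraMap O F o ≠ 0 := fun h => ho (hinjO (by rw [h, map_zero]))
    exact ⟨_, h1, algebraMap O F o, Subalgebra.algebraMap_mem _ o, ho', by field_simp⟩
  obtain ⟨𝓑, hB1, hB2, hB3, hC, T, hTB, harc⟩ := CORE3 hPTS hJ hn y hy hF N hN0 hN
  have hC' : ∀ i, cN O y N i ∈ 𝓑 := hC
  have hFam : Fam 𝓑 := fam_of (O := O) (fun B hB => (hB1 B hB).1) (fun B hB => (hB1 B hB).2.1) hB2 hB3
    ⟨_, hC' i₀⟩
  -- the structure morphisms
  let hs : ∀ B, B ∈ 𝓑 → (O →+* B) := fun B hB => (algebraMap O F).codRestrict B fun o => (hB1 B hB).1.base o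
  obtain ⟨Y, g, ι, hY1, hY2, hι, hιc, hιs, hlft⟩ := hGLU hOIM F 𝓑 hFam (Spec (CommRingCat.of O))
    (fun B hB => Spec.map (CommRingCat.ofHom (hs B hB))) (by
      intro B C hB hC hBC
      unfold inc
      rw [← Spec.map_comp, ← CommRingCat.ofHom_comp]
      rfl)
  have hsep : IsSeparated g := inferInstance
  have hgen' : ∀ B hB, gen B ≫ ι B hB ≫ g = Spec.map (CommRingCat.ofHom (algebraMap O F)) := by
    intro B hB
    rw [(hι B hB).2]
    unfold gen
    rw [← Spec.map_comp, ← CommRingCat.ofHom_comp]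
    rfl
  let Wr : ∀ B, B ∈ 𝓑 → Y.Opens := fun B hB => have := (hι B hB).1; (ι B hB).opensRange
  have hWr : ∀ B hB (z : Sp B), ι B hB z ∈ Wr B hB := fun B hB z => ⟨z, rfl⟩
  have hWc : ∀ B hB, IsCompact (Wr B hB : Set Y) := by
    intro B hB
    have := (hι B hB).1
    change IsCompact ((ι B hB).opensRange : Set Y)
    rw [Scheme.Hom.coe_opensRange]
    exact isCompact_range (ι B hB).continuous
  -- the part where `N` is invertible
  have hDN : ∀ x : Y, x ∈ Y.basicOpen (N : Γ(Y, ⊤)) → ∃ i w, ι (cN O y N i) (hC' i) w = x := by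
    intro x hx
    obtain ⟨B, hB, z, rfl⟩ := hιs x
    rw [mem_basicOpen_nat] at hx
    let z' : PrimeSpectrum B := z
    obtain ⟨V, hV⟩ := Pool.Agent.Run7.h431.SC.exists_cen B z'.asIdeal
    have hVC : Cn O V := (hB1 B hB).1.cn hV.1
    have hNV : ¬ V.valuation (N : F) < 1 := by
      intro h
      apply hx
      refine (hV.2 (N : B)).2 ?_
      rw [Subring.coe_natCast]
      exact h
    obtain ⟨hN1, hN2⟩ := inv_mem_of_not_lt hNV
    obtain ⟨i, hi⟩ := exists_max_gen hy hMM hVC
    have hcV : cN O y N i ≤ V.toSubring := adj_le (chart_le_V hVC hi) hN2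
    refine ⟨i, (show Sp (cN O y N i) from (⟨Pool.Agent.Run7.h431.SC.cen V _ hcV, inferInstance⟩ :
        PrimeSpectrum (cN O y N i))), ?_⟩
    · have h1 := cen_pt V hV.1 hcV (ι B hB) (ι _ (hC' i)) (ι _ (hB2 B hB _ (hC' i)))
        (hιc B _ hB (hB2 B hB _ (hC' i)) le_sup_left) (hιc _ _ (hC' i) (hB2 B hB _ (hC' i)) le_sup_right)
      rw [← h1]
      congr 1
      exact PrimeSpectrum.ext (cen_eq hV hV.1).symm
  refine ⟨Y, g, hY1, hSTK F 𝓑 Y ι (fun B hB => (hι B hB).1) hιs (fun B hB V hV => (hB1 B hB).2.2.1 V hV), hsep, ?_, ?_,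
    ?_, ?_, fun q => (⨆ i, Wr _ (hC' i)) ⊔ ⨆ B : {B // ∃ q' ≤ q, B ∈ T q'}, Wr B.1 (by
      obtain ⟨q', -, h2⟩ := B.2
      exact hTB q' B.1 h2), ?_, ?_, ?_, ?_⟩
  · exact hlft fun B hB => hLFO O F B (hB1 B hB).1 _ (by rw [← (hι B hB).2]; exact hgen' B hB)
  · exact hFLT O F hinjO 𝓑 Y g ι (fun B hB => (hι B hB).1) hgen' hιs
  · -- the generic fibre
    refine hGFB O E F 𝓑 hFam Y g ι hY2 (fun B hB => (hι B hB).1) hgen' hιc hιs X f g₀ n (fun i => ch E y i)
      (fun i => cN O y N i) j hC' ?_ ?_ ?_ hj hgen hcov hf hg₀ ?_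
    · intro i
      have hOE : ∀ o : O, algebraMap O F o ∈ ch E y i := fun o => by
        rw [IsScalarTower.algebraMap_apply O E F]
        exact Subalgebra.algebraMap_mem (Algebra.adjoin E (Set.range fun j => y j / y i)) _
      refine Subring.closure_le.2 ?_
      rintro z (hz | hz)
      · let S : Subalgebra O F := { ch E y i with algebraMap_mem' := hOE }
        have h1 : chart O M₀ (y i) ≤ S := Algebra.adjoin_le (by
          rintro _ ⟨x, hx, rfl⟩
          change x / y i ∈ S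
          induction hx using Submodule.span_induction with
          | mem x hx => obtain ⟨j, rfl⟩ := hx; exact Algebra.subset_adjoin ⟨j, rfl⟩
          | zero => rw [zero_div]; exact S.zero_mem
          | add x z _ _ hx hz => rw [add_div]; exact S.add_mem hx hz
          | smul c x _ hx =>
            rw [Algebra.smul_def, mul_div_assoc]
            exact S.mul_mem (hOE c) hx)
        exact h1 hz
      · rw [Set.mem_singleton_iff] at hz
        have h1 : z = algebraMap E F ((N : E)⁻¹) := by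
          rw [hz, map_inv₀, map_natCast]
        rw [h1]
        exact Subalgebra.algebraMap_mem (Algebra.adjoin E (Set.range fun j => y j / y i)) _
    · intro i a ha
      obtain ⟨o, ho, h1⟩ := hden i a ha
      exact ⟨o, ho, ch_le_cN N i h1⟩
    · intro i e
      exact Subalgebra.algebraMap_mem (Algebra.adjoin E (Set.range fun j => y j / y i)) _
    · intro B hB V hV hE
      have hVC : Cn O V := (hB1 B hB).1.cn hV
      obtain ⟨i, hi⟩ := exists_max_gen hy hMM hVC
      refine ⟨i, ?_⟩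
      let S : Subalgebra E F := { V.toSubring with algebraMap_mem' := hE }
      have h1 : Algebra.adjoin E (Set.range fun j => y j / y i) ≤ S := Algebra.adjoin_le (by
        rintro _ ⟨j, rfl⟩
        exact hi _ (hyM j))
      exact h1
  · -- normal crossings
    intro x
    obtain ⟨B, hB, z, rfl⟩ := hιs x
    have hιB := (hι B hB).1
    have hNB : (N : F) ∈ B := natCast_mem B N
    refine hSNS F Y Y (𝟙 Y) B B le_rfl (ι B hB) (ι B hB) hιB hιB ?_ ⟨(N : F), hNB⟩ _ ?_ (fun V hV =>
      ncf_of_ncz ((hB1 B hB).2.2.2 V hV)) z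
    · rw [Category.comp_id]
      exact (hιc B B hB hB le_rfl).symm
    · intro z
      have : (⟨(N : F), hNB⟩ : B) = (N : B) := Subtype.ext (by rw [Subring.coe_natCast])
      rw [this]
      exact mem_basicOpen_nat (ι B hB) N z
  · -- monotone
    intro q q' hqq
    refine sup_le_sup le_rfl (iSup_le fun B => ?_)
    obtain ⟨B, q₁, h1, h2⟩ := B
    exact le_iSup (fun B : {B // ∃ q₁ ≤ q', B ∈ T q₁} => Wr B.1 (by
      obtain ⟨q', -, h2⟩ := B.2
      exact hTB q' B.1 h2)) ⟨B, q₁, h1.trans hqq, h2⟩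
  · intro q
    rw [TopologicalSpace.Opens.coe_sup, TopologicalSpace.Opens.coe_iSup, TopologicalSpace.Opens.coe_iSup]
    have hfin : Finite {B // ∃ q' ≤ q, B ∈ T q'} := by
      have h1 : {B | ∃ q' ≤ q, B ∈ T q'} ⊆ ((Finset.range (q + 1)).biUnion T : Finset (Subring F)) := by
        rintro B ⟨q', h1, h2⟩
        exact Finset.mem_coe.2 (Finset.mem_biUnion.2 ⟨q', Finset.mem_range.2 (Nat.lt_succ_of_le h1), h2⟩)
      exact (Set.Finite.subset (Finset.finite_toSet _) h1).to_subtype
    exact (isCompact_iUnion fun i => hWc _ _).union (isCompact_iUnion fun B => hWc _ _)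
  · intro x hx
    obtain ⟨i, w, rfl⟩ := hDN x hx
    refine TopologicalSpace.Opens.mem_sup.2 (Or.inl ?_)
    rw [TopologicalSpace.Opens.mem_iSup]
    exact ⟨i, hWr _ _ _⟩
  · -- the valuative criterion
    intro R _ _ _ γ δ q hNR hsq
    set K := FractionRing R with hK
    obtain ⟨VR, hV1, hV2, hV3⟩ := hVVV R
    have hNR0 : (N : R) ≠ 0 := fun h => hNR (by rw [h]; exact Ideal.zero_mem _)
    have hNK : (N : K) ≠ 0 := by
      intro h
      apply hNR0
      apply IsFractionRing.injective R K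
      rw [map_natCast, map_zero]
      exact h
    let z₀ : Spec (CommRingCat.of K) := (⊥ : PrimeSpectrum K)
    have hz₀ : ∀ z : Spec (CommRingCat.of K), z = z₀ := fun z => Subsingleton.elim (α := PrimeSpectrum K) _ _
    obtain ⟨i, w, hw⟩ := hDN (γ z₀) (by
      rw [mem_basicOpen_nat]
      intro h
      exact hNK ((Submodule.mem_bot _).1 h))
    have hιi := (hι _ (hC' i)).1
    have hrange : Set.range γ ⊆ Set.range (ι _ (hC' i)) := by
      rintro _ ⟨z, rfl⟩
      rw [hz₀ z]
      exact ⟨w, hw⟩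
    obtain ⟨φ, hφ⟩ := Spec.map_surjective (IsOpenImmersion.lift (ι _ (hC' i)) γ hrange)
    have hφγ : Spec.map φ ≫ ι _ (hC' i) = γ := by
      rw [hφ]
      exact IsOpenImmersion.lift_fac _ _ _
    obtain ⟨δ', rfl⟩ := Spec.map_surjective δ
    have hO : ∀ o : O, φ.hom (hs _ (hC' i) o) = algebraMap R K (δ'.hom o) := by
      rw [← hφγ, Category.assoc, (hι _ (hC' i)).2, ← Spec.map_comp, ← Spec.map_comp] at hsq
      have h1 := Spec.map_injective hsq
      intro o
      have h2 := congrArg (fun ψ => ψ.hom o) h1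
      exact h2.symm
    obtain ⟨l, π, hπ, γ', hγ1, hγ2⟩ := ext_point hy N VR i φ.hom (by
      intro o h
      have h1 := hO o
      change φ.hom (⟨algebraMap O F o, h⟩ : cN O y N i) ∈ VR
      have h2 : φ.hom (⟨algebraMap O F o, h⟩ : cN O y N i) = φ.hom (hs _ (hC' i) o) := rfl
      rw [h2, h1]
      exact hV1 _)
    obtain ⟨B, hB, hAB, βV, hβ⟩ := harc q K VR l π hπ (by
      have h1 := hV3 (N : R) q hNR
      rwa [map_natCast] at h1)
    have hBB : B ∈ 𝓑 := hTB q B hB
    let κ : R →+* VR := (algebraMap R K).codRestrict VR.toSubring hV1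
    have hκ : Function.Bijective κ := by
      constructor
      · intro x z hxz
        exact IsFractionRing.injective R K (congrArg Subtype.val hxz)
      · rintro ⟨x, hx⟩
        obtain ⟨z, hz⟩ := hV2 x hx
        exact ⟨z, Subtype.ext hz⟩
    let κe : R ≃+* VR := RingEquiv.ofBijective κ hκ
    let βR : B →+* R := κe.symm.toRingHom.comp βV
    have hβK : ∀ b : B, algebraMap R K (βR b) = ((βV b : VR) : K) := by
      intro b
      have h1 : κe (κe.symm (βV b)) = βV b := RingEquiv.apply_symm_apply _ _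
      exact congrArg Subtype.val h1
    let κ' : cN O y N l →+* K := γ'.comp (Subring.inclusion le_sup_right)
    obtain ⟨γ₂, hγ3, hγ4⟩ := ext_beta N hN0 hNK l hAB ((algebraMap R K).comp βR) κ' (by
      intro b hb
      change γ' ⟨b, _⟩ = algebraMap R K (βR ⟨b, hAB hb⟩)
      rw [hβK, hγ2 b hb]
      exact (hβ ⟨b, hb⟩ (hAB hb)).symm)
    have hsup : B ⊔ cN O y N l ∈ 𝓑 := hB2 B hBB _ (hC' l)
    have hsup' : cN O y N i ⊔ cN O y N l ∈ 𝓑 := hB2 _ (hC' i) _ (hC' l)
    have e1 : (algebraMap R K).comp βR = γ₂.comp (Subring.inclusion le_sup_left) := by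
      ext b
      exact (hγ3 b b.2 _).symm
    have e2 : κ' = γ₂.comp (Subring.inclusion le_sup_right) := by
      ext b
      exact (hγ4 b b.2 _).symm
    have e3 : φ.hom = γ'.comp (Subring.inclusion le_sup_left) := by
      ext b
      exact (hγ1 b b.2 _).symm
    have hpt : γ = Spec.map (CommRingCat.ofHom κ') ≫ ι _ (hC' l) := by
      have h1 := hιc _ _ (hC' i) hsup' le_sup_left
      have h2 := hιc _ _ (hC' l) hsup' le_sup_right
      unfold inc at h1 h2
      have h3 : φ = CommRingCat.ofHom (γ'.comp (Subring.inclusion le_sup_left)) := by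
        rw [← e3]
        rfl
      rw [← hφγ, h3, CommRingCat.ofHom_comp, Spec.map_comp, Category.assoc, h1, ← h2, ← Category.assoc,
        ← Spec.map_comp, ← CommRingCat.ofHom_comp]
    refine ⟨Spec.map (CommRingCat.ofHom βR) ≫ ι B hBB, ?_, ?_, ?_⟩
    · rw [← Category.assoc, ← Spec.map_comp, ← CommRingCat.ofHom_comp, e1, CommRingCat.ofHom_comp, Spec.map_comp,
        Category.assoc]
      have h1 := hιc B _ hBB hsup le_sup_left
      have h2 := hιc _ _ (hC' l) hsup le_sup_right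
      unfold inc at h1 h2
      rw [h1, ← h2, hpt, e2, CommRingCat.ofHom_comp, Spec.map_comp, Category.assoc]
    · rw [Category.assoc, (hι B hBB).2, ← Spec.map_comp]
      congr 1
      ext o
      change βR (hs B hBB o) = δ'.hom o
      apply IsFractionRing.injective R K
      rw [← hO]
      have h1 : algebraMap R K (βR (hs B hBB o)) = π ⟨algebraMap O F o, Subalgebra.algebraMap_mem _ o⟩ := by
        rw [hβK]
        exact hβ ⟨algebraMap O F o, Subalgebra.algebraMap_mem _ o⟩ _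
      rw [h1]
      have h3 : algebraMap O F o ∈ cN O y N i ⊔ cN O y N l :=
        le_sup_left (a := cN O y N i) (b := cN O y N l) ((hB1 _ (hC' i)).1.base o)
      rw [← hγ2 _ (Subalgebra.algebraMap_mem _ o) h3]
      exact hγ1 _ ((hB1 _ (hC' i)).1.base o) h3
    · intro z
      refine TopologicalSpace.Opens.mem_sup.2 (Or.inr ?_)
      rw [TopologicalSpace.Opens.mem_iSup]
      refine ⟨⟨B, q, le_rfl, hB⟩, ?_⟩
      rw [Scheme.Hom.comp_apply]
      exact hWr _ _ _

end Pool.Agent.Run7.h275.SC
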