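import Pool.Agent.Run7.h275.S.FD
import Pool.Agent.Run7.h275.S.ME
import Pool.Agent.Run7.h594.SC.VVV
import Pool.Agent.Run7.h617.S.SMR
import Pool.Agent.Run7.h56.SC.PRJ
import Pool.Agent.Run7.h232.RB.GFB
import Pool.Agent.Run7.h639.RB.NUM
import Pool.Agent.Run7.h24.RB.CMP2

/-!
# Regular models with a given generic fibre over rings of integers
-/

set_option autoImplicit false
set_option linter.unusedVariables false

namespace Pool.Agent.Run7.h275.SC

open AlgebraicGeometry CategoryTheory CategoryTheory.Limits Pool.Agent.W418.LU2 Pool.Agent.H918R2.Quad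
  Pool.Agent.Run7.h275.RB Pool.Agent.Run7.h275.RL

/-- The charts of a regular scheme are regular. -/
lemma chart_regular {X : Scheme.{0}} (hX : ∀ x : X, IsRegularLocalRing (X.presheaf.stalk x)) {B : Type} [CommRing B]
    (j : Spec (CommRingCat.of B) ⟶ X) (hj : IsOpenImmersion j) (P : Ideal B) [hP : P.IsPrime] :
    IsRegularLocalRing (Localization.AtPrime P) := by
  let z : PrimeSpectrum B := ⟨P, hP⟩
  let z' : Spec (CommRingCat.of B) := z
  have h1 : IsLocalization.AtPrime ((Spec.structureSheaf B).presheaf.stalk z) P :=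
    StructureSheaf.IsLocalization.to_stalk B z
  have e1 : Localization.AtPrime P ≃+* (Spec (CommRingCat.of B)).presheaf.stalk z' :=
    (IsLocalization.algEquiv P.primeCompl (Localization.AtPrime P)
      ((Spec.structureSheaf B).presheaf.stalk z)).toRingEquiv
  have e2 := (asIso (j.stalkMap z')).commRingCatIsoToRingEquiv
  have := hX (j z')
  exact IsRegularLocalRing.of_ringEquiv (e2.trans e1.symm)

/-- A projective scheme is separated. -/
lemma sep_of_proj {E : Type} [CommRing E] {X : Scheme.{0}} {S : Scheme.{0}} (f : X ⟶ S) {A : Type} [CommRing A]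
    [Algebra E A] (𝒜 : ℕ → Submodule E A) [GradedAlgebra 𝒜] (h : Nonempty (X ≅ Proj 𝒜)) : IsSeparated f := by
  obtain ⟨e⟩ := h
  have h1 : (Proj 𝒜).IsSeparated := by
    have : IsSeparated (Proj.toSpecZero 𝒜) := inferInstance
    exact (Scheme.isSeparated_iff _).2 (by
      rw [← terminal.comp_from (Proj.toSpecZero 𝒜)]
      infer_instance)
  have h2 : X.IsSeparated := (Scheme.isSeparated_iff _).2 (by
    rw [← terminal.comp_from e.hom]
    have := h1.isSeparated_terminal_from
    infer_instance)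
  infer_instance

/-- **Regular models over `O` of regular projective schemes over the number field `E = Frac O`.** -/
theorem t_MAINC (E O : Type) [Field E] [NumberField E] [CommRing O] [IsDedekindDomain O] [IsRegularRing O] [Algebra O E]
    [IsFractionRing O E] (hJ : J0 O) (hint : ∀ o : O, _root_.IsIntegral ℤ o)
    (X : Scheme.{0}) (hX : IsIntegral X) (f : X ⟶ Spec (CommRingCat.of E))
    (hXr : ∀ x : X, IsRegularLocalRing (X.presheaf.stalk x))
    (hpr : ∃ (A : Type) (_ : CommRing A) (_ : Algebra E A) (𝒜 : ℕ → Submodule E A) (_ : GradedAlgebra 𝒜),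
      (∀ a ∈ 𝒜 0, ∃ q : E, algebraMap E A q = a) ∧
      (∃ s : Finset A, (∀ a ∈ s, a ∈ 𝒜 1) ∧ Algebra.adjoin E (s : Set A) = ⊤) ∧ Nonempty (X ≅ Proj 𝒜)) :
    ∃ (Y : Scheme.{0}) (g : Y ⟶ Spec (CommRingCat.of O)), IsIntegral Y ∧
      (∀ y : Y, IsRegularLocalRing (Y.presheaf.stalk y)) ∧ IsSeparated g ∧ LocallyOfFiniteType g ∧ Flat g ∧
      (∃ φ : X ≅ pullback g (Spec.map (CommRingCat.ofHom (algebraMap O E))), φ.hom ≫ pullback.snd _ _ = f) ∧
      ∃ N : ℕ, N ≠ 0 ∧ (∀ y : Y, NCat (𝟙 Y) (Y.basicOpen (N : Γ(Y, ⊤))) y) ∧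
      ∃ W : ℕ → Y.Opens, Monotone W ∧ (∀ q, IsCompact (W q : Set Y)) ∧ Y.basicOpen (N : Γ(Y, ⊤)) ≤ W 0 ∧
        ∀ (R : Type) [CommRing R] [IsDomain R] [ValuationRing R] (γ : Spec (CommRingCat.of (FractionRing R)) ⟶ Y)
          (δ : Spec (CommRingCat.of R) ⟶ Spec (CommRingCat.of O)) (q : ℕ),
          (N : R) ∉ IsLocalRing.maximalIdeal R ^ (q + 1) →
          Spec.map (CommRingCat.ofHom (algebraMap R (FractionRing R))) ≫ δ = γ ≫ g →
          ∃ β : Spec (CommRingCat.of R) ⟶ Y, Spec.map (CommRingCat.ofHom (algebraMap R (FractionRing R))) ≫ β = γ ∧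
            β ≫ g = δ ∧ ∀ z, β z ∈ W q := by
  have hf : IsSeparated f := by
    obtain ⟨A, _, _, 𝒜, _, -, -, h⟩ := hpr
    exact sep_of_proj f 𝒜 h
  obtain ⟨F, _, _, g₀, n, y, j, hy, hFr, hj, hgen, hcov, hg₀⟩ := Pool.Agent.Run7.h56.SC.t_PRJ E X f hpr
  letI : Algebra O F := ((algebraMap E F).comp (algebraMap O E)).toAlgebra
  haveI : IsScalarTower O E F := IsScalarTower.of_algebraMap_eq fun _ => rfl
  have hreg : ∀ (i : Fin n) (P : Ideal (Algebra.adjoin E (Set.range fun j => y j / y i)).toSubring) [P.IsPrime],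
      IsRegularLocalRing (Localization.AtPrime P) := by
    intro i P hP
    exact @chart_regular X hXr _ _ (j i) (hj i) P hP
  obtain ⟨N, hN0, hN⟩ := Pool.Agent.Run7.h639.RB.uniform_int (O := O) (K := E) hint y hy hreg
  have hcF : CharZero F := charZero_of_injective_algebraMap (algebraMap E F).injective
  obtain ⟨Y, g, h1, h2, h3, h4, h5, h6, h7, h8⟩ := MAINC Pool.Agent.Run7.h300.SC.t_OIM Pool.Agent.Run7.h431.SC.t_GLU
    _root_.Run7.h596.SC.t_STK Pool.Agent.Run7.h292.SC.t_LFO Pool.Agent.Run7.h594.SC.t_VVV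
    Pool.Agent.Run7.h216.RB.t_PTS _root_.Run7.h216.SC.t_SNS Pool.Agent.Run7.h232.RB.t_GFB Pool.Agent.Run7.h617.S.t_FLT
    O E F hJ X f hf g₀ n y j hy hFr hj hgen hcov hg₀ N (Nat.cast_ne_zero.2 hN0) hN
  exact ⟨Y, g, h1, h2, h3, h4, h5, h6, N, hN0, h7, h8⟩

/-- Uniqueness of extensions. -/
lemma ext_unique {S Y : Scheme.{0}} (g : Y ⟶ S) (hg : IsSeparated g) (hS : S.IsSeparated) (R : Type) [CommRing R]
    [IsDomain R] (β β' : Spec (CommRingCat.of R) ⟶ Y)
    (h : Spec.map (CommRingCat.ofHom (algebraMap R (FractionRing R))) ≫ β =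
      Spec.map (CommRingCat.ofHom (algebraMap R (FractionRing R))) ≫ β') : β = β' := by
  have hd : IsDominant (Spec.map (CommRingCat.ofHom (algebraMap R (FractionRing R)))) := by
    refine ⟨?_⟩
    refine (PrimeSpectrum.denseRange_comap_iff_ker_le_nilRadical (algebraMap R (FractionRing R))).2 ?_
    rw [(RingHom.injective_iff_ker_eq_bot _).1 (IsFractionRing.injective R (FractionRing R))]
    exact bot_le
  have hT : IsSeparated (terminal.from S) := hS.isSeparated_terminal_from
  have h1 : β ≫ g ≫ terminal.from S = β' ≫ g ≫ terminal.from S := terminal.hom_ext _ _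
  have : IsSeparated (g ≫ terminal.from S) := inferInstance
  exact ext_of_isDominant_of_isSeparated (g ≫ terminal.from S) h1
    (Spec.map (CommRingCat.ofHom (algebraMap R (FractionRing R)))) h

end Pool.Agent.Run7.h275.SC
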