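import Pool.Agent.Run7.h275.S.I0

/-!
# Interface: contact orders
-/

set_option autoImplicit false
set_option linter.unusedVariables false

namespace Pool.Agent.Run7.h275.SC

open AlgebraicGeometry CategoryTheory Pool.Agent.W418.LU2 Pool.Agent.Run7.h275.RB

/-- The arc `α` has contact order at most `q` with the complement of the open set `U`: it factors through an affine open
set `V`, and the image in `R` of some function `g` on `V` which vanishes outside of `U` is not in `𝔪 ^ (q + 1)`. -/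
def ContactLE {X : Scheme.{0}} (U : X.Opens) {R : Type} [CommRing R] [IsLocalRing R]
    (α : Spec (CommRingCat.of R) ⟶ X) (q : ℕ) : Prop :=
  ∃ (V : X.Opens) (hV : IsAffineOpen V) (ρ : Γ(X, V) ⟶ CommRingCat.of R) (g : Γ(X, V)), X.basicOpen g ≤ U ∧
    Spec.map ρ ≫ hV.fromSpec = α ∧ ρ g ∉ IsLocalRing.maximalIdeal R ^ (q + 1)

/-- **CTE** Arcs which meet `U` have a finite contact order.  Proof: `V` an affine open neighbourhood of the image of the
closed point; `α` factors through `V`; there is `g` on `V` with `α η ∈ D(g) ≤ U` (`η` the generic point of `Spec R`), so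
`ρ g ≠ 0`, and `⋂ 𝔪 ^ n = 0`. -/
def S_CTE : Prop := ∀ (X : Scheme.{0}) (U : X.Opens) (R : Type) [CommRing R] [IsDomain R] [IsDiscreteValuationRing R]
  (α : Spec (CommRingCat.of R) ⟶ X), (∃ z, α z ∈ U) → ∃ q, ContactLE U α q

/-- **CTO** Proof: let `x` be the image of the closed point in `Spec A`. There is `s ∈ A` with `x ∈ D(s)` and `j (D(s)) ⊆ V`; so
there is a ring homomorphism `ψ : Γ(X, V) → A[1/s] ⊆ F` (the germ at the generic point), `ψ g = c / s ^ k`, `c ∈ A`, and `β s` is a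
unit of `R` with `β c = (β s) ^ k * ρ g` (both sides define `α` on `Spec R → V`).  Let `b = c * s`.  Then `D(b)` is mapped into
`D(g) ⊆ U = u.opensRange`, so `Spec A[1/b] → X` factors through `u`, and `B₀ ⊆ A[1/b]` in `F`. -/
def S_CTO : Prop := ∀ (F : Type) [Field F] (X : Scheme.{0}) [IsIntegral X] (g₀ : Spec (CommRingCat.of F) ⟶ X)
  (A B₀ : Subring F) (j : Sp A ⟶ X) (u : Sp B₀ ⟶ X), A ≤ B₀ → Fr A → IsOpenImmersion j → gen A ≫ j = g₀ →
  ∀ (_ : IsOpenImmersion u), gen B₀ ≫ u = g₀ → ∀ (R : Type) [CommRing R] [IsLocalRing R] (β : A →+* R) (V : X.Opens)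
  (hV : IsAffineOpen V) (ρ : Γ(X, V) ⟶ CommRingCat.of R) (g : Γ(X, V)), X.basicOpen g ≤ u.opensRange →
  Spec.map ρ ≫ hV.fromSpec = Spec.map (CommRingCat.ofHom β) ≫ j → ρ g ≠ 0 →
  ∃ b : A, (b : F) ≠ 0 ∧ B₀ ≤ Subring.closure ((A : Set F) ∪ {(b : F)⁻¹}) ∧ ∃ v : R, IsUnit v ∧ β b = v * ρ g

end Pool.Agent.Run7.h275.SC
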