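import Pool.Agent.Run7.h275.S.I1

/-!
# Interface: normal crossings
-/

set_option autoImplicit false
set_option linter.unusedVariables false

namespace Pool.Agent.Run7.h275.SC

open AlgebraicGeometry CategoryTheory Pool.Agent.W418.LU2 Pool.Agent.Run7.h275.RB

/-- The inverse image of the complement of the open set `U` is a divisor with strict normal crossings at the point `y` (or
empty): in the local ring it is the zero set of a product of some elements of a system of parameters which generates the maximal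
ideal. -/
def NCat {X Y : Scheme.{0}} (π : Y ⟶ X) (U : X.Opens) (y : Y) : Prop :=
  ∃ (d : ℕ) (x : Fin d → Y.presheaf.stalk y) (J : Finset (Fin d)),
    Ideal.span (Set.range x) = IsLocalRing.maximalIdeal (Y.presheaf.stalk y) ∧
    ringKrullDim (Y.presheaf.stalk y) = d ∧
    ∀ z : Spec (Y.presheaf.stalk y), (Y.fromSpecStalk y ≫ π) z ∈ U ↔
      ∀ j ∈ J, x j ∉ (show PrimeSpectrum (Y.presheaf.stalk y) from z).asIdeal

/-- The same for the zero set of `f` in the spectrum of the local subring `Q`. -/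
def NCf {F : Type} [Field F] (Q : Subring F) (f : F) : Prop :=
  ∃ (_ : IsLocalRing Q) (d : ℕ) (x : Fin d → Q) (J : Finset (Fin d)),
    Ideal.span (Set.range x) = IsLocalRing.maximalIdeal Q ∧ ringKrullDim Q = d ∧
    ∀ (𝔭 : Ideal Q), 𝔭.IsPrime → ∀ q : Q, (q : F) = f → (q ∉ 𝔭 ↔ ∀ j ∈ J, x j ∉ 𝔭)

/-- **SNS** The local rings of `Y`, with the map to `X`.  The stalk at `ι z` is `B_z = lo V B` for a valuation ring `V` with the
centre `z` (see `exists_center`, `stalkEquiv` in `Run7/h596/SC/STK.lean`; or directly: transport along the isomorphism with the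
localisation), and the morphism `Spec stalk → Y → X` is `Spec B_z → Spec B → Spec A → X`. -/
def S_SNS : Prop := ∀ (F : Type) [Field F] (X Y : Scheme.{0}) (π : Y ⟶ X) (A B : Subring F) (hAB : A ≤ B)
  (j : Sp A ⟶ X) (ι : Sp B ⟶ Y) (_ : IsOpenImmersion j) (_ : IsOpenImmersion ι), ι ≫ π = inc hAB ≫ j →
  ∀ (f : A) (U : X.Opens), (∀ z : Sp A, j z ∈ U ↔ f ∉ (show PrimeSpectrum A from z).asIdeal) →
  (∀ V : ValuationSubring F, B ≤ V.toSubring → NCf (lo V.toSubring B) (f : F)) → ∀ z : Sp B, NCat π U (ι z)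

/-- **RNG** The image of `Spec A[1/f]`. -/
def S_RNG : Prop := ∀ (F : Type) [Field F] (X : Scheme.{0}) (A B₀ : Subring F) (h : A ≤ B₀) (j : Sp A ⟶ X)
  (u : Sp B₀ ⟶ X) (_ : IsOpenImmersion j) (_ : IsOpenImmersion u), u = inc h ≫ j → ∀ f : A, (f : F) ≠ 0 →
  B₀ = Subring.closure ((A : Set F) ∪ {(f : F)⁻¹}) →
  ∀ z : Sp A, j z ∈ u.opensRange ↔ f ∉ (show PrimeSpectrum A from z).asIdeal

end Pool.Agent.Run7.h275.SC
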