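import Pool.Agent.Run7.h275.S.I1
import Pool.Agent.Run7.h275.RB21

/-!
# The main theorem on schemes
-/

set_option autoImplicit false
set_option linter.unusedVariables false

namespace Pool.Agent.Run7.h275.SC

open AlgebraicGeometry CategoryTheory Pool.Agent.W418.LU2 Pool.Agent.Run7.h275.RB Pool.Agent.Run7.h275.RL

lemma gen_inc {F : Type} [Field F] {B C : Subring F} (h : B ≤ C) : gen C ≫ inc h = gen B := by
  unfold gen inc
  rw [← Spec.map_comp, ← CommRingCat.ofHom_comp]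
  rfl

/-- The ring side, the properties of the family. -/
theorem fam_of {F : Type} [Field F] {O : Type} [CommRing O] [Algebra O F] {𝓑 : Set (Subring F)}
    (h1 : ∀ B ∈ 𝓑, FGO O B) (h2 : ∀ B ∈ 𝓑, Frc B) (h3 : ∀ B ∈ 𝓑, ∀ C ∈ 𝓑, B ⊔ C ∈ 𝓑)
    (h4 : ∀ B ∈ 𝓑, ∀ C ∈ 𝓑, ∀ V : ValuationSubring F, B ≤ V.toSubring → C ≤ V.toSubring →
        lo V.toSubring B = lo V.toSubring C) (hne : 𝓑.Nonempty) : Fam 𝓑 where
  ne := hne
  fr := h2
  sup := h3
  fg := fun B hB C hC hBC => (h1 B hB).over (h1 C hC) hBC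
  loc := h4

theorem MAIN (hOIM : S_OIM) (hGLU : S_GLU) (hDCT : S_DCT) (hSEC : S_SEC) (hEQM : S_EQM) (hLCR : S_LCR)
    (hSTK : S_STK) (hLFO : S_LFO) (hDVV : S_DVV) (hCTO : S_CTO) (hPTS : S_PTS)
    (O : Type) [CommRing O] [IsDomain O] [IsRegularRing O] (hJ : J0 O)
    (X : Scheme.{0}) [IsIntegral X] (f : X ⟶ Spec (CommRingCat.of O)) (hf1 : LocallyOfFiniteType f)
    (hf2 : QuasiCompact f) (hf3 : IsSeparated f)
    (hMnz : ∀ (F : Type) [Field F] [Algebra O F] (_ : F ≃+* X.functionField) (n : ℕ) (y : Fin n → F) (i : Fin n),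
      ∃ δ, δ ≠ 0 ∧ Mn O y i δ) :
    ∃ (Y : Scheme.{0}) (π : Y ⟶ X), IsIntegral Y ∧ (∀ y : Y, IsRegularLocalRing (Y.presheaf.stalk y)) ∧
      IsSeparated π ∧ LocallyOfFiniteType π ∧ ∃ U : X.Opens, U ≠ ⊥ ∧ IsIso (π ∣_ U) ∧
        ∃ W : ℕ → Y.Opens, (∀ q, IsCompact (W q : Set Y)) ∧
          ∀ (R : Type) [CommRing R] [IsDomain R] [IsDiscreteValuationRing R] (α : Spec (CommRingCat.of R) ⟶ X) (q : ℕ),
            ContactLE U α q → ∃ β : Spec (CommRingCat.of R) ⟶ Y, β ≫ π = α ∧ ∀ z, β z ∈ W q := by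
  classical
  obtain ⟨F, _, _, e, g₀, r, A, j, hA, hcov, hg₀f, hg₀⟩ := hDCT O X f hf1 hf2
  have hr : 0 < r := by
    obtain ⟨i, -⟩ := hcov (genericPoint X)
    exact lt_of_le_of_lt (Nat.zero_le _) i.2
  obtain ⟨𝓑, hB1, hB2, hB3, B₀, hB₀, hAB₀, hopen, T, hTB, harc⟩ := CORE hPTS hJ (fun n y i => hMnz F e n y i) hr A
    (fun i => (hA i).1) (fun i => (hA i).2.1)
  have hFam : Fam 𝓑 := fam_of (O := O) (fun B hB => (hB1 B hB).1) (fun B hB => (hB1 B hB).2.1) hB2 hB3 ⟨B₀, hB₀⟩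
  -- the morphisms to `X`
  have hmor : ∀ B, B ∈ 𝓑 → ∃ h : Sp B ⟶ X, ∀ i (hi : A i ≤ B), inc hi ≫ j i = h := by
    intro B hB
    obtain ⟨i, hi⟩ := (hB1 B hB).2.2.1
    refine ⟨inc hi ≫ j i, fun i' hi' => ?_⟩
    refine hEQM F O B X f _ _ hf3 ?_
    rw [← Category.assoc, ← Category.assoc, gen_inc, gen_inc, (hA i).2.2.2, (hA i').2.2.2]
  choose h hh using hmor
  have hgh : ∀ B (hB : B ∈ 𝓑), gen B ≫ h B hB = g₀ := by
    intro B hB
    obtain ⟨i, hi⟩ := (hB1 B hB).2.2.1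
    rw [← hh B hB i hi, ← Category.assoc, gen_inc, (hA i).2.2.2]
  obtain ⟨Y, π, ι, hY1, hY2, hι, hιc, hιs, hlft⟩ := hGLU hOIM F 𝓑 hFam X h (by
    intro B C hB hC hBC
    refine hEQM F O C X f _ _ hf3 ?_
    rw [← Category.assoc, gen_inc, hgh, hgh])
  have hsep : IsSeparated π := inferInstance
  -- the open set
  have hB₀o : IsOpenImmersion (h B₀ hB₀) := by
    let i : Fin r := ⟨0, hr⟩
    obtain ⟨b, ⟨hbA, hb0, hbB⟩, hBeq⟩ := hopen i
    have h1 : IsOpenImmersion (inc (hAB₀ i)) := by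
      refine hOIM F (A i) B₀ (hAB₀ i) ⟨{b⁻¹}, ?_⟩ ?_
      · rw [Finset.coe_singleton]
        exact hBeq
      · intro V hV
        have hbV : b⁻¹ ∈ V := hV (by rw [hBeq]; exact Subring.subset_closure (Or.inr rfl))
        rw [hBeq, lo_adj ((hAB₀ i).trans hV) hbA hb0 hbV]
    have h2 := (hA i).2.2.1
    rw [← hh B₀ hB₀ i (hAB₀ i)]
    infer_instance
  refine ⟨Y, π, hY1, hSTK F 𝓑 Y ι (fun B hB => (hι B hB).1) hιs (fun B hB V hV => (hB1 B hB).2.2.2 V hV), hsep, ?_,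
    (h B₀ hB₀).opensRange, ?_, ?_, fun q => ⨆ B : {B // B ∈ T q}, (have := (hι B.1 (hTB q B.1 B.2)).1
      (ι B.1 (hTB q B.1 B.2)).opensRange), ?_, ?_⟩
  · refine hlft fun B hB => ?_
    have h1 : LocallyOfFiniteType (h B hB ≫ f) := by
      refine hLFO O F B (hB1 B hB).1 _ ?_
      rw [← Category.assoc, hgh, hg₀f]
    exact locallyOfFiniteType_of_comp (h B hB) f
  · intro h0
    have h1 : h B₀ hB₀ (gen B₀ (⊥ : PrimeSpectrum F)) ∈ (h B₀ hB₀).opensRange := ⟨_, rfl⟩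
    rw [h0] at h1
    exact h1
  · exact hSEC X Y (Sp B₀) π (h B₀ hB₀) (ι B₀ hB₀) hY1 hsep ⟨gen B₀ (⊥ : PrimeSpectrum F)⟩ hB₀o (hι B₀ hB₀).1
      (hι B₀ hB₀).2
  · intro q
    rw [TopologicalSpace.Opens.coe_iSup]
    refine isCompact_iUnion fun B => ?_
    have := (hι B.1 (hTB q B.1 B.2)).1
    rw [Scheme.Hom.coe_opensRange]
    exact isCompact_range (ι B.1 (hTB q B.1 B.2)).continuous
  · rintro R _ _ _ α q ⟨V, hV, ρ, g, hgU, hρα, hρg⟩
    obtain ⟨i, β₀, hβ₀⟩ := hLCR R X r (fun i => Sp (A i)) j (fun i => (hA i).2.2.1) hcov α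
    obtain ⟨φ, rfl⟩ := Spec.map_surjective β₀
    have hρ0 : ρ g ≠ 0 := fun h0 => hρg (by rw [h0]; exact Ideal.zero_mem _)
    obtain ⟨b, hb0, hbB, v, hv, hbv⟩ := hCTO F X g₀ (A i) B₀ (j i) (h B₀ hB₀) (hAB₀ i) (hA i).2.1 (hA i).2.2.1
      (hA i).2.2.2 hB₀o (hgh B₀ hB₀) R φ.hom V hV ρ g hgU (by rw [hρα]; exact hβ₀.symm) hρ0
    obtain ⟨VR, hV1, hV2, hV3, -⟩ := hDVV R
    have hord : OrdLe VR (algebraMap R (FractionRing R) (φ.hom b)) q := by
      refine hV3 _ q ?_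
      rw [hbv]
      exact fun h1 => hρg ((Ideal.unit_mul_mem_iff_mem _ hv).1 h1)
    obtain ⟨B, hB, hAB, βK, hβK⟩ := harc q (FractionRing R) VR i ((algebraMap R (FractionRing R)).comp φ.hom)
      (fun a => hV1 _) b ⟨b.2, hb0, hbB⟩ hord
    -- the identification of `R` with the valuation ring
    let κ : R →+* VR := (algebraMap R (FractionRing R)).codRestrict VR.toSubring hV1
    have hκ : Function.Bijective κ := by
      constructor
      · intro x z hxz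
        exact IsFractionRing.injective R (FractionRing R) (congrArg Subtype.val hxz)
      · rintro ⟨x, hx⟩
        obtain ⟨z, hz⟩ := hV2 x hx
        exact ⟨z, Subtype.ext hz⟩
    let κe : R ≃+* VR := RingEquiv.ofBijective κ hκ
    let βR : B →+* R := κe.symm.toRingHom.comp βK
    have hβR : βR.comp (Subring.inclusion hAB) = φ.hom := by
      ext a
      change κe.symm (βK ⟨a, hAB a.2⟩) = φ.hom a
      rw [RingEquiv.symm_apply_eq]
      apply Subtype.ext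
      exact hβK a (hAB a.2)
    refine ⟨Spec.map (CommRingCat.ofHom βR) ≫ ι B (hTB q B hB), ?_, ?_⟩
    · rw [Category.assoc, (hι B (hTB q B hB)).2, ← hh B (hTB q B hB) i hAB, ← Category.assoc, ← hβ₀]
      congr 1
      unfold inc
      rw [← Spec.map_comp, ← CommRingCat.ofHom_comp, hβR]
      rfl
    · intro z
      rw [TopologicalSpace.Opens.mem_iSup]
      exact ⟨⟨B, hB⟩, Spec.map (CommRingCat.ofHom βR) z, by rw [Scheme.Hom.comp_apply]⟩

end Pool.Agent.Run7.h275.SC
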